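import Mathlib

section

/-!
Entropy of finitely supported probability measures on a group, seen as elements of the
group algebra.
-/

open Filter Topology Finset

set_option linter.unusedSectionVars false

namespace Pool.Agent.MP_56e4d4_pr

variable {G : Type*} [Group G]

/-- Expectation of `φ` under `f`. -/
noncomputable def Ex (f : MonoidAlgebra ℝ G) (φ : G → ℝ) : ℝ :=
  ∑ x ∈ f.coeff.support, f.coeff x * φ x

/-- Probability vectors. -/
structure IsProb (f : MonoidAlgebra ℝ G) : Prop where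
  nonneg : ∀ x, 0 ≤ f.coeff x
  total : ∑ x ∈ f.coeff.support, f.coeff x = 1

/-- Entropy. -/
noncomputable def Ent (f : MonoidAlgebra ℝ G) : ℝ :=
  ∑ x ∈ f.coeff.support, Real.negMulLog (f.coeff x)

lemma Ex_eq_sum (f : MonoidAlgebra ℝ G) (φ : G → ℝ) (T : Finset G) (hT : f.coeff.support ⊆ T) :
    Ex f φ = ∑ x ∈ T, f.coeff x * φ x := by
  unfold Ex
  refine Finset.sum_subset hT fun x _ hx => ?_
  rw [Finsupp.notMem_support_iff.mp hx, zero_mul]

lemma Ex_add_left (f g : MonoidAlgebra ℝ G) (φ : G → ℝ) :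
    Ex (f + g) φ = Ex f φ + Ex g φ := by
  classical
  rw [Ex_eq_sum f φ (f.coeff.support ∪ g.coeff.support) Finset.subset_union_left,
    Ex_eq_sum g φ (f.coeff.support ∪ g.coeff.support) Finset.subset_union_right,
    Ex_eq_sum (f + g) φ (f.coeff.support ∪ g.coeff.support)
      (by rw [MonoidAlgebra.coeff_add]; exact Finsupp.support_add), ← Finset.sum_add_distrib]
  refine Finset.sum_congr rfl fun x _ => ?_
  simp [add_mul]

@[simp] lemma Ex_zero_left (φ : G → ℝ) : Ex (0 : MonoidAlgebra ℝ G) φ = 0 := by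
  simp [Ex]

lemma Ex_single (a : G) (r : ℝ) (φ : G → ℝ) : Ex (MonoidAlgebra.single a r) φ = r * φ a := by
  rw [Ex_eq_sum _ φ {a} (by rw [MonoidAlgebra.coeff_single]; exact Finsupp.support_single_subset)]
  simp

lemma Ex_smul_left (c : ℝ) (f : MonoidAlgebra ℝ G) (φ : G → ℝ) :
    Ex (c • f) φ = c * Ex f φ := by
  rw [Ex_eq_sum (c • f) φ f.coeff.support
    (by rw [MonoidAlgebra.coeff_smul]; exact Finsupp.support_smul)]
  unfold Ex
  rw [Finset.mul_sum]
  refine Finset.sum_congr rfl fun x _ => ?_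
  simp [mul_assoc]

lemma Ex_sum_left {ι : Type*} (s : Finset ι) (f : ι → MonoidAlgebra ℝ G) (φ : G → ℝ) :
    Ex (∑ i ∈ s, f i) φ = ∑ i ∈ s, Ex (f i) φ := by
  classical
  induction s using Finset.induction_on with
  | empty => simp
  | insert i s hi ih => rw [Finset.sum_insert hi, Finset.sum_insert hi, Ex_add_left, ih]

lemma Ex_add (f : MonoidAlgebra ℝ G) (φ ψ : G → ℝ) :
    Ex f (fun x => φ x + ψ x) = Ex f φ + Ex f ψ := by
  simp [Ex, mul_add, Finset.sum_add_distrib]

lemma Ex_sub (f : MonoidAlgebra ℝ G) (φ ψ : G → ℝ) :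
    Ex f (fun x => φ x - ψ x) = Ex f φ - Ex f ψ := by
  simp [Ex, mul_sub, Finset.sum_sub_distrib]

lemma Ex_mul_left (f : MonoidAlgebra ℝ G) (c : ℝ) (φ : G → ℝ) :
    Ex f (fun x => c * φ x) = c * Ex f φ := by
  simp only [Ex, Finset.mul_sum]
  refine Finset.sum_congr rfl fun x _ => by ring

lemma Ex_sum {ι : Type*} (f : MonoidAlgebra ℝ G) (s : Finset ι) (φ : ι → G → ℝ) :
    Ex f (fun x => ∑ i ∈ s, φ i x) = ∑ i ∈ s, Ex f (φ i) := by
  simp only [Ex, Finset.mul_sum]
  exact Finset.sum_comm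

lemma Ex_comm (f g : MonoidAlgebra ℝ G) (φ : G → G → ℝ) :
    Ex f (fun x => Ex g (fun y => φ x y)) = Ex g (fun y => Ex f (fun x => φ x y)) := by
  simp only [Ex, Finset.mul_sum]
  rw [Finset.sum_comm]
  refine Finset.sum_congr rfl fun x _ => Finset.sum_congr rfl fun y _ => by ring

lemma Ex_mul (f g : MonoidAlgebra ℝ G) (φ : G → ℝ) :
    Ex (f * g) φ = Ex f (fun x => Ex g (fun y => φ (x * y))) := by
  induction f using MonoidAlgebra.induction_linear with
  | zero => simp
  | add f₁ f₂ h₁ h₂ => rw [add_mul, Ex_add_left, Ex_add_left, h₁, h₂]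
  | single a r =>
    rw [Ex_single]
    induction g using MonoidAlgebra.induction_linear with
    | zero => simp
    | add g₁ g₂ h₁ h₂ => rw [mul_add, Ex_add_left, Ex_add_left, h₁, h₂, mul_add]
    | single b s => rw [MonoidAlgebra.single_mul_single, Ex_single, Ex_single, mul_assoc]

lemma Ex_one (φ : G → ℝ) : Ex (1 : MonoidAlgebra ℝ G) φ = φ 1 := by
  rw [MonoidAlgebra.one_def, Ex_single, one_mul]

lemma Ex_congr {f : MonoidAlgebra ℝ G} {φ ψ : G → ℝ}
    (h : ∀ x ∈ f.coeff.support, φ x = ψ x) : Ex f φ = Ex f ψ :=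
  Finset.sum_congr rfl fun x hx => by rw [h x hx]

lemma Ex_mono {f : MonoidAlgebra ℝ G} (hf : ∀ x, 0 ≤ f.coeff x) {φ ψ : G → ℝ}
    (h : ∀ x ∈ f.coeff.support, φ x ≤ ψ x) : Ex f φ ≤ Ex f ψ :=
  Finset.sum_le_sum fun x hx => mul_le_mul_of_nonneg_left (h x hx) (hf x)

lemma IsProb.Ex_const {f : MonoidAlgebra ℝ G} (hf : IsProb f) (c : ℝ) :
    Ex f (fun _ => c) = c := by
  unfold Ex
  rw [← Finset.sum_mul, hf.total, one_mul]

lemma Ex_nonneg {f : MonoidAlgebra ℝ G} (hf : ∀ x, 0 ≤ f.coeff x) {φ : G → ℝ}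
    (h : ∀ x ∈ f.coeff.support, 0 ≤ φ x) : 0 ≤ Ex f φ :=
  Finset.sum_nonneg fun x hx => mul_nonneg (hf x) (h x hx)

lemma IsProb.Ex_le {f : MonoidAlgebra ℝ G} (hf : IsProb f) {φ : G → ℝ} {c : ℝ}
    (h : ∀ x ∈ f.coeff.support, φ x ≤ c) : Ex f φ ≤ c :=
  (Ex_mono hf.nonneg h).trans_eq (hf.Ex_const c)

lemma IsProb.pos {f : MonoidAlgebra ℝ G} (hf : IsProb f) {x : G} (hx : x ∈ f.coeff.support) :
    0 < f.coeff x :=
  lt_of_le_of_ne (hf.nonneg x) (Finsupp.mem_support_iff.mp hx).symm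

lemma IsProb.sum_le_one {f : MonoidAlgebra ℝ G} (hf : IsProb f) (T : Finset G) :
    ∑ x ∈ T, f.coeff x ≤ 1 := by
  classical
  have h1 : ∑ x ∈ T ∪ f.coeff.support, f.coeff x = 1 := by
    rw [← hf.total]
    refine (Finset.sum_subset Finset.subset_union_right fun x _ hx => ?_).symm
    exact Finsupp.notMem_support_iff.mp hx
  rw [← h1]
  exact Finset.sum_le_sum_of_subset_of_nonneg Finset.subset_union_left fun x _ _ => hf.nonneg x

lemma IsProb.sum_eq_one {f : MonoidAlgebra ℝ G} (hf : IsProb f) {T : Finset G}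
    (hT : f.coeff.support ⊆ T) : ∑ x ∈ T, f.coeff x = 1 := by
  rw [← hf.total]
  refine (Finset.sum_subset hT fun x _ hx => ?_).symm
  exact Finsupp.notMem_support_iff.mp hx

lemma IsProb.le_one {f : MonoidAlgebra ℝ G} (hf : IsProb f) (x : G) : f.coeff x ≤ 1 := by
  simpa using hf.sum_le_one {x}

lemma IsProb.support_nonempty {f : MonoidAlgebra ℝ G} (hf : IsProb f) :
    f.coeff.support.Nonempty := by
  rw [Finset.nonempty_iff_ne_empty]
  intro h
  have := hf.total
  rw [h] at this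
  simp at this

lemma coeff_eq_Ex [DecidableEq G] (f : MonoidAlgebra ℝ G) (z : G) :
    f.coeff z = Ex f (fun x => if x = z then 1 else 0) := by
  rw [Ex_eq_sum f _ (insert z f.coeff.support) (Finset.subset_insert _ _)]
  simp

lemma coeff_mul_eq (f g : MonoidAlgebra ℝ G) (z : G) :
    (f * g).coeff z = Ex f (fun x => g.coeff (x⁻¹ * z)) := by
  rw [MonoidAlgebra.coeff_mul_apply_left]
  rfl

lemma coeff_mul_nonneg {f g : MonoidAlgebra ℝ G} (hf : ∀ x, 0 ≤ f.coeff x)
    (hg : ∀ x, 0 ≤ g.coeff x) (z : G) : 0 ≤ (f * g).coeff z := by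
  rw [coeff_mul_eq]
  exact Ex_nonneg hf fun x _ => hg _

lemma IsProb.mul {f g : MonoidAlgebra ℝ G} (hf : IsProb f) (hg : IsProb g) : IsProb (f * g) := by
  refine ⟨coeff_mul_nonneg hf.nonneg hg.nonneg, ?_⟩
  have := Ex_mul f g (fun _ => 1)
  simp only [hg.Ex_const, hf.Ex_const] at this
  simpa [Ex] using this

lemma isProb_one : IsProb (1 : MonoidAlgebra ℝ G) := by
  classical
  refine ⟨fun x => ?_, ?_⟩
  · rw [MonoidAlgebra.one_def, MonoidAlgebra.coeff_single, Finsupp.single_apply]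
    split_ifs <;> norm_num
  · have := Ex_one (G := G) (fun _ => 1)
    simpa [Ex] using this

lemma IsProb.pow {f : MonoidAlgebra ℝ G} (hf : IsProb f) (k : ℕ) : IsProb (f ^ k) := by
  induction k with
  | zero => simpa using isProb_one
  | succ k ih => rw [pow_succ]; exact ih.mul hf

lemma le_coeff_mul {f g : MonoidAlgebra ℝ G} (hf : ∀ x, 0 ≤ f.coeff x)
    (hg : ∀ x, 0 ≤ g.coeff x) (x y : G) : f.coeff x * g.coeff y ≤ (f * g).coeff (x * y) := by
  classical
  rw [coeff_mul_eq, Ex_eq_sum f _ (insert x f.coeff.support) (Finset.subset_insert _ _)]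
  have := Finset.single_le_sum (f := fun a => f.coeff a * g.coeff (a⁻¹ * (x * y)))
    (s := insert x f.coeff.support) (fun a _ => mul_nonneg (hf a) (hg _))
    (Finset.mem_insert_self x _)
  simpa using this

lemma mem_support_mul {f g : MonoidAlgebra ℝ G} {z : G} (hz : z ∈ (f * g).coeff.support) :
    ∃ x ∈ f.coeff.support, ∃ y ∈ g.coeff.support, z = x * y := by
  rw [Finsupp.mem_support_iff, coeff_mul_eq] at hz
  obtain ⟨x, hx, h⟩ := Finset.exists_ne_zero_of_sum_ne_zero hz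
  refine ⟨x, hx, x⁻¹ * z, Finsupp.mem_support_iff.mpr (right_ne_zero_of_mul h), by simp⟩

lemma Ent_eq_Ex (f : MonoidAlgebra ℝ G) : Ent f = Ex f (fun x => - Real.log (f.coeff x)) := by
  simp [Ent, Ex, Real.negMulLog]

lemma Ent_eq_sum (f : MonoidAlgebra ℝ G) (T : Finset G) (hT : f.coeff.support ⊆ T) :
    Ent f = ∑ x ∈ T, Real.negMulLog (f.coeff x) := by
  unfold Ent
  refine Finset.sum_subset hT fun x _ hx => ?_
  rw [Finsupp.notMem_support_iff.mp hx, Real.negMulLog_zero]

lemma IsProb.Ent_nonneg {f : MonoidAlgebra ℝ G} (hf : IsProb f) : 0 ≤ Ent f :=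
  Finset.sum_nonneg fun x _ => Real.negMulLog_nonneg (hf.nonneg x) (hf.le_one x)

lemma IsProb.Ent_le_log_card {f : MonoidAlgebra ℝ G} (hf : IsProb f) {c : ℝ}
    (hc : (f.coeff.support.card : ℝ) ≤ c) : Ent f ≤ Real.log c := by
  have hpos : (0 : ℝ) < f.coeff.support.card := by exact_mod_cast hf.support_nonempty.card_pos
  have hc0 : 0 < c := hpos.trans_le hc
  have h1 : Ent f - Real.log c = Ex f (fun x => Real.log (1 / (c * f.coeff x))) := by
    rw [Ent_eq_Ex, ← hf.Ex_const (Real.log c), ← Ex_sub]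
    refine Ex_congr fun x hx => ?_
    have := hf.pos hx
    rw [one_div, Real.log_inv, Real.log_mul hc0.ne' this.ne']
    ring
  have h2 : Ex f (fun x => Real.log (1 / (c * f.coeff x))) ≤
      Ex f (fun x => 1 / (c * f.coeff x) - 1) :=
    Ex_mono hf.nonneg fun x hx => Real.log_le_sub_one_of_pos (by have := hf.pos hx; positivity)
  have h3 : Ex f (fun x => 1 / (c * f.coeff x)) = f.coeff.support.card / c := by
    unfold Ex
    rw [Finset.sum_congr rfl (g := fun _ => 1 / c)]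
    · simp [div_eq_mul_inv]
    · intro x hx
      have := hf.pos hx
      field_simp
  rw [Ex_sub, h3, hf.Ex_const] at h2
  have : (f.coeff.support.card : ℝ) / c ≤ 1 := (div_le_one hc0).mpr hc
  linarith

lemma Ent_mul_le {f g : MonoidAlgebra ℝ G} (hf : IsProb f) (hg : IsProb g) :
    Ent (f * g) ≤ Ent f + Ent g := by
  rw [Ent_eq_Ex (f * g), Ex_mul, Ent_eq_Ex f, ← hf.Ex_const (Ent g), ← Ex_add]
  refine Ex_mono hf.nonneg fun x hx => ?_
  rw [Ent_eq_Ex g, ← hg.Ex_const (- Real.log (f.coeff x)), ← Ex_add]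
  refine Ex_mono hg.nonneg fun y hy => ?_
  have h1 := hf.pos hx
  have h2 := hg.pos hy
  have := Real.log_le_log (mul_pos h1 h2) (le_coeff_mul hf.nonneg hg.nonneg x y)
  rw [Real.log_mul h1.ne' h2.ne'] at this
  linarith

/-- Entropy is additive when the product map is injective on the supports. -/
lemma Ent_mul_eq {f g : MonoidAlgebra ℝ G} (hf : IsProb f) (hg : IsProb g)
    (hinj : ∀ x ∈ f.coeff.support, ∀ y ∈ g.coeff.support, ∀ x' ∈ f.coeff.support,
      ∀ y' ∈ g.coeff.support, x * y = x' * y' → x = x') :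
    Ent (f * g) = Ent f + Ent g := by
  classical
  rw [Ent_eq_Ex (f * g), Ex_mul, Ent_eq_Ex f, ← hf.Ex_const (Ent g), ← Ex_add]
  refine Ex_congr fun x hx => ?_
  rw [Ent_eq_Ex g, ← hg.Ex_const (- Real.log (f.coeff x)), ← Ex_add]
  refine Ex_congr fun y hy => ?_
  have h1 := hf.pos hx
  have h2 := hg.pos hy
  have : (f * g).coeff (x * y) = f.coeff x * g.coeff y := by
    rw [coeff_mul_eq, Ex, Finset.sum_eq_single x]
    · simp
    · intro x' hx' hne
      by_contra h
      exact hne (hinj x hx y hy x' hx' (x'⁻¹ * (x * y))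
        (Finsupp.mem_support_iff.mpr (right_ne_zero_of_mul h)) (by simp)).symm
    · intro h
      exact absurd hx h
  rw [this, Real.log_mul h1.ne' h2.ne']
  ring

/-- The variational lower bound for the mutual information of `X` and `X Y`. -/
lemma Ent_mul_sub_ge {α β : MonoidAlgebra ℝ G} (hα : IsProb α) (hβ : IsProb β)
    (F : G → G → ℝ) (hF : ∀ x ∈ α.coeff.support, ∀ z, 0 < F x z) {B : ℝ}
    (hB : ∀ z, Ex α (fun x => F x z) ≤ B) :
    Ex α (fun x => Ex β (fun y => Real.log (F x (x * y)))) - (B - 1) ≤ Ent (α * β) - Ent β := by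
  classical
  have hαβ := hα.mul hβ
  have h1 : Ex α (fun x => Ex β (fun y => Real.log (F x (x * y)))) - (Ent (α * β) - Ent β) =
      Ex α (fun x => Ex β (fun y =>
        Real.log ((α * β).coeff (x * y) * F x (x * y) / β.coeff y))) := by
    rw [Ent_eq_Ex (α * β), Ex_mul, ← hα.Ex_const (Ent β), ← Ex_sub, ← Ex_sub]
    refine Ex_congr fun x hx => ?_
    rw [Ent_eq_Ex β, ← Ex_sub, ← Ex_sub]
    refine Ex_congr fun y hy => ?_
    have p1 := hα.pos hx
    have p2 := hβ.pos hy
    have p3 : 0 < (α * β).coeff (x * y) :=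
      (mul_pos p1 p2).trans_le (le_coeff_mul hα.nonneg hβ.nonneg x y)
    have p4 := hF x hx (x * y)
    rw [Real.log_div (mul_pos p3 p4).ne' p2.ne', Real.log_mul p3.ne' p4.ne']
    ring
  have h2 : Ex α (fun x => Ex β (fun y =>
        Real.log ((α * β).coeff (x * y) * F x (x * y) / β.coeff y))) ≤
      Ex α (fun x => Ex (α * β) (fun z => F x z) - 1) := by
    refine Ex_mono hα.nonneg fun x hx => ?_
    have p1 := hα.pos hx
    calc _ ≤ Ex β (fun y => (α * β).coeff (x * y) * F x (x * y) / β.coeff y - 1) := by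
          refine Ex_mono hβ.nonneg fun y hy => Real.log_le_sub_one_of_pos ?_
          have p2 := hβ.pos hy
          have p3 : 0 < (α * β).coeff (x * y) :=
            (mul_pos p1 p2).trans_le (le_coeff_mul hα.nonneg hβ.nonneg x y)
          have p4 := hF x hx (x * y)
          positivity
      _ ≤ _ := by
          rw [Ex_sub, hβ.Ex_const]
          refine sub_le_sub_right ?_ _
          have e1 : Ex β (fun y => (α * β).coeff (x * y) * F x (x * y) / β.coeff y) =
              ∑ z ∈ β.coeff.support.image (fun y => x * y), (α * β).coeff z * F x z := by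
            rw [Finset.sum_image (fun a _ b _ h => mul_left_cancel h)]
            refine Finset.sum_congr rfl fun y hy => ?_
            have p2 := hβ.pos hy
            field_simp
          rw [e1, Ex_eq_sum (α * β) _
            ((α * β).coeff.support ∪ β.coeff.support.image (fun y => x * y))
            Finset.subset_union_left]
          exact Finset.sum_le_sum_of_subset_of_nonneg Finset.subset_union_right
            fun z _ _ => mul_nonneg (hαβ.nonneg z) (hF x hx z).le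
  rw [Ex_sub, hα.Ex_const, Ex_comm α (α * β)] at h2
  have h3 : Ex (α * β) (fun z => Ex α (fun x => F x z)) ≤ B := hαβ.Ex_le fun z _ => hB z
  linarith

open Classical in
/-- The counting form of the previous bound. -/
lemma Ent_mul_sub_ge_count {α β : MonoidAlgebra ℝ G} (hα : IsProb α) (hβ : IsProb β)
    (A : Finset G) (good : G → G → Prop) {N M : ℝ} (hN : 1 ≤ N) (hM : 1 ≤ M)
    (hAM : (A.card : ℝ) ≤ M) (hgood : ∀ z, ((A.filter fun x => good x z).card : ℝ) ≤ N) :
    ∑ x ∈ A, Real.negMulLog (α.coeff x) - Real.log (2 * N) -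
      Real.log (2 * M) *
        Ex α (fun x => Ex β (fun y => if x ∈ A ∧ ¬ good x (x * y) then 1 else 0)) -
      (1 - ∑ x ∈ A, α.coeff x) ≤ Ent (α * β) - Ent β := by
  set F : G → G → ℝ := fun x z =>
    if x ∈ A then (if good x z then 1 / (2 * N * α.coeff x) else 1 / (2 * M * α.coeff x))
    else 1 with hFdef
  have hN0 : 0 < N := by linarith
  have hM0 : 0 < M := by linarith
  have lN : 0 ≤ Real.log (2 * N) := Real.log_nonneg (by linarith)
  have lM : 0 ≤ Real.log (2 * M) := Real.log_nonneg (by linarith)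
  have hF : ∀ x ∈ α.coeff.support, ∀ z, 0 < F x z := by
    intro x hx z
    have := hα.pos hx
    simp only [hFdef]
    split_ifs <;> positivity
  have hA1 : Ex α (fun x => if x ∈ A then 0 else 1) = 1 - ∑ x ∈ A, α.coeff x := by
    have : Ex α (fun x => if x ∈ A then 1 else 0) = ∑ x ∈ A, α.coeff x := by
      rw [Ex_eq_sum α _ (α.coeff.support ∪ A) Finset.subset_union_left]
      simp only [mul_ite, mul_one, mul_zero]
      rw [← Finset.sum_filter]
      congr 1
      ext x
      simp only [Finset.mem_filter, Finset.mem_union]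
      tauto
    rw [← this, ← hα.Ex_const 1, ← Ex_sub]
    refine Ex_congr fun x _ => ?_
    split_ifs <;> simp [hα.Ex_const]
  have hB : ∀ z, Ex α (fun x => F x z) ≤ 1 + (1 - ∑ x ∈ A, α.coeff x) := by
    intro z
    rw [← hA1]
    have e1 : Ex α (fun x => F x z) ≤
        ∑ x ∈ α.coeff.support, ((if x ∈ A ∧ good x z then 1 / (2 * N) else 0) +
          (if x ∈ A then 1 / (2 * M) else 0) + α.coeff x * (if x ∈ A then 0 else 1)) := by
      refine Finset.sum_le_sum fun x hx => ?_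
      have := hα.pos hx
      simp only [hFdef]
      by_cases h1 : x ∈ A
      · by_cases h2 : good x z
        · simp only [h1, h2, if_true, and_self, mul_zero, add_zero]
          have : α.coeff x * (1 / (2 * N * α.coeff x)) = 1 / (2 * N) := by field_simp
          rw [this]
          have : 0 ≤ 1 / (2 * M) := by positivity
          linarith
        · simp only [h1, h2, if_true, if_false, and_false, mul_zero, add_zero, zero_add]
          have : α.coeff x * (1 / (2 * M * α.coeff x)) = 1 / (2 * M) := by field_simp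
          rw [this]
      · simp [h1]
    refine e1.trans ?_
    rw [Finset.sum_add_distrib, Finset.sum_add_distrib]
    refine add_le_add ?_ le_rfl
    have e2 : ∑ x ∈ α.coeff.support, (if x ∈ A ∧ good x z then 1 / (2 * N) else 0) ≤ 1 / 2 := by
      rw [← Finset.sum_filter, Finset.sum_const, nsmul_eq_mul]
      have : (((α.coeff.support.filter fun x => x ∈ A ∧ good x z).card : ℕ) : ℝ) ≤ N := by
        refine le_trans ?_ (hgood z)
        exact_mod_cast Finset.card_le_card fun x hx => by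
          simp only [Finset.mem_filter] at hx ⊢
          exact hx.2
      calc _ ≤ N * (1 / (2 * N)) := by gcongr
        _ = 1 / 2 := by field_simp
    have e3 : ∑ x ∈ α.coeff.support, (if x ∈ A then 1 / (2 * M) else 0) ≤ 1 / 2 := by
      rw [← Finset.sum_filter, Finset.sum_const, nsmul_eq_mul]
      have : (((α.coeff.support.filter fun x => x ∈ A).card : ℕ) : ℝ) ≤ M := by
        refine le_trans ?_ hAM
        exact_mod_cast Finset.card_le_card fun x hx => by
          simp only [Finset.mem_filter] at hx ⊢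
          exact hx.2
      calc _ ≤ M * (1 / (2 * M)) := by gcongr
        _ = 1 / 2 := by field_simp
    linarith
  have key := Ent_mul_sub_ge hα hβ F hF hB
  have hlog : ∑ x ∈ A, Real.negMulLog (α.coeff x) - Real.log (2 * N) -
      Real.log (2 * M) *
        Ex α (fun x => Ex β (fun y => if x ∈ A ∧ ¬ good x (x * y) then 1 else 0)) ≤
      Ex α (fun x => Ex β (fun y => Real.log (F x (x * y)))) := by
    have e1 : ∑ x ∈ A, Real.negMulLog (α.coeff x) =
        Ex α (fun x => if x ∈ A then - Real.log (α.coeff x) else 0) := by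
      rw [Ex_eq_sum α _ (α.coeff.support ∪ A) Finset.subset_union_left]
      simp only [mul_ite, mul_zero]
      rw [← Finset.sum_filter]
      refine Finset.sum_congr ?_ fun x _ => by simp [Real.negMulLog]
      ext x
      simp only [Finset.mem_filter, Finset.mem_union]
      tauto
    rw [e1, ← hα.Ex_const (Real.log (2 * N)), ← Ex_mul_left, ← Ex_sub, ← Ex_sub]
    refine Ex_mono hα.nonneg fun x hx => ?_
    have p1 := hα.pos hx
    rw [← Ex_mul_left, ← hβ.Ex_const ((if x ∈ A then - Real.log (α.coeff x) else 0) -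
      Real.log (2 * N)), ← Ex_sub]
    refine Ex_mono hβ.nonneg fun y _ => ?_
    simp only [hFdef]
    by_cases h1 : x ∈ A
    · by_cases h2 : good x (x * y)
      · simp only [h1, h2, if_true, not_true, and_false, if_false, mul_zero, sub_zero]
        rw [one_div, Real.log_inv, Real.log_mul (by positivity) p1.ne']
        linarith
      · simp only [h1, h2, if_true, if_false, not_false_iff, and_self, mul_one]
        rw [one_div, Real.log_inv, Real.log_mul (by positivity) p1.ne']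
        linarith
    · simp [h1, lN]
  linarith

/-- The asymptotic entropy. -/
noncomputable def hh (f : MonoidAlgebra ℝ G) : ℝ :=
  limUnder atTop fun k : ℕ => Ent (f ^ k) / k

lemma subadditive_Ent {f : MonoidAlgebra ℝ G} (hf : IsProb f) :
    Subadditive fun k => Ent (f ^ k) := fun a b => by
  simp only [pow_add]
  exact Ent_mul_le (hf.pow a) (hf.pow b)

lemma bddBelow_Ent {f : MonoidAlgebra ℝ G} (hf : IsProb f) :
    BddBelow (Set.range fun k : ℕ => Ent (f ^ k) / k) :=
  ⟨0, by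
    rintro _ ⟨k, rfl⟩
    exact div_nonneg (hf.pow k).Ent_nonneg (Nat.cast_nonneg k)⟩

lemma hh_eq {f : MonoidAlgebra ℝ G} (hf : IsProb f) : hh f = (subadditive_Ent hf).lim :=
  ((subadditive_Ent hf).tendsto_lim (bddBelow_Ent hf)).limUnder_eq

lemma tendsto_hh {f : MonoidAlgebra ℝ G} (hf : IsProb f) :
    Tendsto (fun k : ℕ => Ent (f ^ k) / k) atTop (𝓝 (hh f)) := by
  rw [hh_eq hf]
  exact (subadditive_Ent hf).tendsto_lim (bddBelow_Ent hf)

lemma hh_le {f : MonoidAlgebra ℝ G} (hf : IsProb f) {k : ℕ} (hk : k ≠ 0) :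
    hh f ≤ Ent (f ^ k) / k := by
  rw [hh_eq hf]
  exact (subadditive_Ent hf).lim_le_div (bddBelow_Ent hf) hk

lemma hh_nonneg {f : MonoidAlgebra ℝ G} (hf : IsProb f) : 0 ≤ hh f :=
  ge_of_tendsto' (tendsto_hh hf) fun k => div_nonneg (hf.pow k).Ent_nonneg (Nat.cast_nonneg k)

lemma tendsto_cesaro_diff {u : ℕ → ℝ} {h : ℝ}
    (hu : Tendsto (fun k : ℕ => u k / k) atTop (𝓝 h)) (m : ℕ) :
    Tendsto (fun K : ℕ => (∑ k ∈ Finset.range K, (u (m + k) - u k)) / K) atTop (𝓝 (m * h)) := by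
  have e : ∀ K : ℕ, ∑ k ∈ Finset.range K, (u (m + k) - u k) =
      ∑ j ∈ Finset.range m, (u (K + j) - u j) := by
    intro K
    have h1 := Finset.sum_range_add u m K
    have h2 := Finset.sum_range_add u K m
    rw [add_comm K m] at h2
    rw [Finset.sum_sub_distrib, Finset.sum_sub_distrib]
    linarith
  simp only [e, Finset.sum_div]
  have : (m : ℝ) * h = ∑ _j ∈ Finset.range m, h := by simp
  rw [this]
  refine tendsto_finsetSum _ fun j _ => ?_
  have t1 : Tendsto (fun K : ℕ => u (K + j) / ((K + j : ℕ) : ℝ)) atTop (𝓝 h) :=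
    hu.comp (tendsto_add_atTop_nat j)
  have t2 : Tendsto (fun K : ℕ => 1 + (j : ℝ) / K) atTop (𝓝 (1 + 0)) :=
    tendsto_const_nhds.add (tendsto_const_div_atTop_nhds_zero_nat _)
  have t3 : Tendsto (fun K : ℕ => u j / K) atTop (𝓝 0) := tendsto_const_div_atTop_nhds_zero_nat _
  have t4 := (t1.mul t2).sub t3
  simp only [add_zero, mul_one, sub_zero] at t4
  refine t4.congr' ?_
  filter_upwards [eventually_gt_atTop 0] with K hK
  have hK' : (0 : ℝ) < K := by exact_mod_cast hK
  have : ((K + j : ℕ) : ℝ) ≠ 0 := by positivity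
  push_cast at this ⊢
  field_simp

/-- The Cesaro average of the convolution powers. -/
noncomputable def ces (f : MonoidAlgebra ℝ G) (K : ℕ) : MonoidAlgebra ℝ G :=
  (K : ℝ)⁻¹ • ∑ k ∈ Finset.range K, f ^ k

lemma Ex_ces (f : MonoidAlgebra ℝ G) (K : ℕ) (φ : G → ℝ) :
    Ex (ces f K) φ = (∑ k ∈ Finset.range K, Ex (f ^ k) φ) / K := by
  rw [ces, Ex_smul_left, Ex_sum_left, div_eq_inv_mul]

lemma isProb_ces {f : MonoidAlgebra ℝ G} (hf : IsProb f) {K : ℕ} (hK : K ≠ 0) :
    IsProb (ces f K) := by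
  classical
  refine ⟨fun x => ?_, ?_⟩
  · rw [coeff_eq_Ex, Ex_ces]
    refine div_nonneg (Finset.sum_nonneg fun k _ => Ex_nonneg (hf.pow k).nonneg fun y _ => ?_)
      (Nat.cast_nonneg K)
    split_ifs <;> norm_num
  · have := Ex_ces f K (fun _ => 1)
    simp only [(hf.pow _).Ex_const, Finset.sum_const, Finset.card_range, nsmul_eq_mul,
      mul_one] at this
    rw [div_self (by exact_mod_cast hK)] at this
    simpa [Ex] using this

lemma Ex_ces_le {f : MonoidAlgebra ℝ G} (hf : IsProb f) {K : ℕ} (hK : K ≠ 0) (φ : G → ℝ)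
    (h0 : ∀ x, 0 ≤ φ x) (h1 : ∀ x, φ x ≤ 1) :
    Ex (ces f K) φ ≤ Ex f (fun s => Ex (ces f K) (fun y => φ (s * y))) + 1 / K := by
  have hK' : (0 : ℝ) < K := by exact_mod_cast Nat.pos_of_ne_zero hK
  have e1 : Ex f (fun s => Ex (ces f K) (fun y => φ (s * y))) =
      (∑ k ∈ Finset.range K, Ex (f ^ (k + 1)) φ) / K := by
    simp only [Ex_ces, div_eq_inv_mul]
    rw [Ex_mul_left, Ex_sum]
    congr 1
    refine Finset.sum_congr rfl fun k _ => ?_
    rw [pow_succ', Ex_mul]
  rw [e1, Ex_ces, ← add_div]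
  refine div_le_div_of_nonneg_right ?_ hK'.le
  have h2 := Finset.sum_range_succ (fun k => Ex (f ^ k) φ) K
  have h3 := Finset.sum_range_succ' (fun k => Ex (f ^ k) φ) K
  have h4 : 0 ≤ Ex (f ^ K) φ := Ex_nonneg (hf.pow K).nonneg fun x _ => h0 x
  have h5 : Ex (f ^ 0) φ ≤ 1 := (hf.pow 0).Ex_le fun x _ => h1 x
  linarith

lemma Ex_ite_mem [DecidableEq G] (α : MonoidAlgebra ℝ G) (A : Finset G) (c : ℝ) :
    Ex α (fun x => if x ∈ A then c else 0) = c * ∑ x ∈ A, α.coeff x := by
  rw [Ex_eq_sum α _ (α.coeff.support ∪ A) Finset.subset_union_left]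
  simp only [mul_ite, mul_zero]
  rw [← Finset.sum_filter, Finset.mul_sum]
  refine Finset.sum_congr ?_ fun x _ => mul_comm _ _
  ext x
  simp only [Finset.mem_filter, Finset.mem_union]
  tauto

open Classical in
/-- Lower bound for the asymptotic entropy. -/
lemma hh_ge_count' {f : MonoidAlgebra ℝ G} (hf : IsProb f) (m : ℕ)
    (A : Finset G) (good : G → G → Prop) {N M η : ℝ} (hN : 1 ≤ N) (hM : 1 ≤ M)
    (hAM : (A.card : ℝ) ≤ M) (hgood : ∀ z, ((A.filter fun x => good x z).card : ℝ) ≤ N)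
    (hbad : ∀ᶠ K in atTop, ∀ x ∈ A,
      Ex (ces f K) (fun y => if ¬ good x (x * y) then 1 else 0) ≤ η) :
    ∑ x ∈ A, Real.negMulLog ((f ^ m).coeff x) - Real.log (2 * N) -
      Real.log (2 * M) * (η * ∑ x ∈ A, (f ^ m).coeff x) -
      (1 - ∑ x ∈ A, (f ^ m).coeff x) ≤ m * hh f := by
  have lM : 0 ≤ Real.log (2 * M) := Real.log_nonneg (by linarith)
  refine ge_of_tendsto (tendsto_cesaro_diff (tendsto_hh hf) m) ?_
  filter_upwards [hbad, eventually_gt_atTop 0] with K hK hK0
  have hK' : (0 : ℝ) < K := by exact_mod_cast hK0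
  have h1 : ∀ k ∈ Finset.range K,
      ∑ x ∈ A, Real.negMulLog ((f ^ m).coeff x) - Real.log (2 * N) -
      Real.log (2 * M) *
        Ex (f ^ m) (fun x => Ex (f ^ k) (fun y => if x ∈ A ∧ ¬ good x (x * y) then 1 else 0)) -
      (1 - ∑ x ∈ A, (f ^ m).coeff x) ≤ Ent (f ^ (m + k)) - Ent (f ^ k) := by
    intro k _
    rw [pow_add]
    exact Ent_mul_sub_ge_count (hf.pow m) (hf.pow k) A good hN hM hAM hgood
  have h2 := Finset.sum_le_sum h1
  rw [le_div_iff₀ hK']
  refine le_trans ?_ h2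
  have h3 : ∑ k ∈ Finset.range K, Ex (f ^ m) (fun x => Ex (f ^ k)
      (fun y => if x ∈ A ∧ ¬ good x (x * y) then 1 else 0)) ≤
      η * K * ∑ x ∈ A, (f ^ m).coeff x := by
    rw [← Ex_sum, ← Ex_ite_mem]
    refine Ex_mono (hf.pow m).nonneg fun x _ => ?_
    by_cases hx : x ∈ A
    · have := hK x hx
      rw [Ex_ces, div_le_iff₀ hK'] at this
      simpa [hx] using this
    · simp only [hx, false_and, if_false, (hf.pow _).Ex_const, Finset.sum_const_zero, le_refl]
  simp only [Finset.sum_sub_distrib, Finset.sum_const, Finset.card_range, nsmul_eq_mul,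
    ← Finset.mul_sum]
  nlinarith [mul_le_mul_of_nonneg_left h3 lM]

open Classical in
lemma hh_ge_count {f : MonoidAlgebra ℝ G} (hf : IsProb f) (m : ℕ)
    (A : Finset G) (good : G → G → Prop) {N M η : ℝ} (hN : 1 ≤ N) (hM : 1 ≤ M) (hη : 0 ≤ η)
    (hAM : (A.card : ℝ) ≤ M) (hgood : ∀ z, ((A.filter fun x => good x z).card : ℝ) ≤ N)
    (hbad : ∀ᶠ K in atTop, ∀ x ∈ A,
      Ex (ces f K) (fun y => if ¬ good x (x * y) then 1 else 0) ≤ η) :
    ∑ x ∈ A, Real.negMulLog ((f ^ m).coeff x) - Real.log (2 * N) - Real.log (2 * M) * η -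
      (1 - ∑ x ∈ A, (f ^ m).coeff x) ≤ m * hh f := by
  have lM : 0 ≤ Real.log (2 * M) := Real.log_nonneg (by linarith)
  have h := hh_ge_count' hf m A good hN hM hAM hgood hbad
  have h1 : η * ∑ x ∈ A, (f ^ m).coeff x ≤ η :=
    mul_le_of_le_one_right hη ((hf.pow m).sum_le_one A)
  nlinarith [mul_le_mul_of_nonneg_left h1 lM]

end Pool.Agent.MP_56e4d4_pr

end

section

/-!
If almost stationary measures concentrate on small balls, then the limit walk preserves a
finite set.
-/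

open Filter Topology Finset

namespace Pool.Agent.MP_56e4d4_pr

variable {G X : Type*} [Group G] [MulAction G X]

lemma exists_max_invariant (a : X → ℝ)
    (hsum : ∀ F : Finset X, ∑ p ∈ F, a p ≤ 1) {η : ℝ} (hη : 0 < η) (p₀ : X) (hp₀ : η ≤ a p₀)
    (μ : MonoidAlgebra ℝ G) (hμ : IsProb μ) (hst : ∀ p, a p ≤ Ex μ (fun s => a (s⁻¹ • p))) :
    ∃ F : Finset X, F.Nonempty ∧ ∀ s ∈ μ.coeff.support, ∀ p ∈ F, s⁻¹ • p ∈ F := by
  classical
  have hfin : {p | η ≤ a p}.Finite := by
    by_contra hinf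
    obtain ⟨n, hn⟩ := exists_nat_gt (1 / η)
    obtain ⟨F, hF, hcard⟩ := Set.Infinite.exists_subset_card_eq hinf n
    have h1 : ∑ _p ∈ F, η ≤ ∑ p ∈ F, a p := Finset.sum_le_sum fun p hp => hF hp
    have h2 := hsum F
    rw [Finset.sum_const, hcard, nsmul_eq_mul] at h1
    rw [div_lt_iff₀ hη] at hn
    linarith
  obtain ⟨q, hq, hmax⟩ := hfin.toFinset.exists_max_image a ⟨p₀, by simpa using hp₀⟩
  have hq' : η ≤ a q := by simpa using hq
  have hle : ∀ p, a p ≤ a q := by
    intro p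
    by_cases h : η ≤ a p
    · exact hmax p (by simpa using h)
    · linarith [not_le.mp h]
  refine ⟨hfin.toFinset.filter (fun p => a p = a q), ⟨q, by simpa using hq'⟩, ?_⟩
  intro s hs p hp
  have hpq : a p = a q := (Finset.mem_filter.mp hp).2
  have h1 : a (s⁻¹ • p) = a q := by
    by_contra hne
    have hlt : a (s⁻¹ • p) < a q := lt_of_le_of_ne (hle _) hne
    have : Ex μ (fun s => a (s⁻¹ • p)) < Ex μ (fun _ => a q) := by
      refine Finset.sum_lt_sum (fun t _ => mul_le_mul_of_nonneg_left (hle _) (hμ.nonneg t))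
        ⟨s, hs, mul_lt_mul_of_pos_left hlt (hμ.pos hs)⟩
    rw [hμ.Ex_const] at this
    linarith [hst p]
  simp only [Finset.mem_filter, Set.Finite.mem_toFinset, Set.mem_ofPred_eq]
  exact ⟨h1 ▸ hq', h1⟩

open Classical in
theorem exists_finite_invariant (d : X → X → ℝ) (d_symm : ∀ p q, d p q = d q p)
    (d_tri : ∀ p q r, d p r ≤ d p q + d q r) (d_pos : ∀ p q, p ≠ q → 0 < d p q)
    (d_cpt : ∀ (U : Ultrafilter ℕ) (u : ℕ → X), ∃ p, Tendsto (fun j => d (u j) p) U (𝓝 0))
    (ξ : X) (μ : MonoidAlgebra ℝ G) (hμ : IsProb μ)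
    (μs νs : ℕ → MonoidAlgebra ℝ G) (hμs : ∀ j, IsProb (μs j)) (hνs : ∀ j, IsProb (νs j))
    (e : ℕ → ℝ) (he : Tendsto e atTop (𝓝 0))
    (hstat : ∀ j (φ : G → ℝ), (∀ x, 0 ≤ φ x) → (∀ x, φ x ≤ 1) →
      Ex (νs j) φ ≤ Ex (μs j) (fun s => Ex (νs j) (fun y => φ (s * y))) + e j)
    (σ : ℕ → G → G)
    (hσw : ∀ s ∈ μ.coeff.support,
      Tendsto (fun j => (μs j).coeff (σ j s)) atTop (𝓝 (μ.coeff s)))
    (hσinj : ∀ᶠ j in atTop, Set.InjOn (σ j) μ.coeff.support)
    (hσc : ∀ s ∈ μ.coeff.support, ∀ p, ∀ ρ > 0, ∃ ρ' > 0, ∀ᶠ j in atTop,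
      ∀ q, d (σ j s • q) p < ρ' → d q (s⁻¹ • p) < ρ)
    {η : ℝ} (hη : 0 < η) (u : ℕ → X) (δ : ℕ → ℝ) (hδ : Tendsto δ atTop (𝓝 0))
    (hbig : ∀ j, η ≤ Ex (νs j) (fun y => if d (y • ξ) (u j) < δ j then 1 else 0)) :
    ∃ F : Finset X, F.Nonempty ∧ ∀ s ∈ μ.coeff.support, ∀ p ∈ F, s⁻¹ • p ∈ F := by
  set U : Ultrafilter ℕ := Ultrafilter.of atTop with hU
  have hUle : (U : Filter ℕ) ≤ atTop := Ultrafilter.of_le _
  set M : ℕ → X → ℝ → ℝ := fun j p ρ =>
    Ex (νs j) (fun y => if d (y • ξ) p < ρ then 1 else 0) with hM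
  have hM0 : ∀ j p ρ, 0 ≤ M j p ρ := fun j p ρ =>
    Ex_nonneg (hνs j).nonneg fun y _ => by split_ifs <;> norm_num
  have hM1 : ∀ j p ρ, M j p ρ ≤ 1 := fun j p ρ =>
    (hνs j).Ex_le fun y _ => by split_ifs <;> norm_num
  have hMmono : ∀ j p ρ p' ρ', (∀ q, d q p < ρ → d q p' < ρ') → M j p ρ ≤ M j p' ρ' := by
    intro j p ρ p' ρ' h
    refine Ex_mono (hνs j).nonneg fun y _ => ?_
    by_cases h1 : d (y • ξ) p < ρ
    · simp [h1, h _ h1]
    · simp only [h1, if_false]
      split_ifs <;> norm_num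
  have hlim : ∀ p ρ, ∃ L, Tendsto (fun j => M j p ρ) U (𝓝 L) := by
    intro p ρ
    obtain ⟨L, -, hL⟩ := (isCompact_Icc (a := (0 : ℝ)) (b := 1)).ultrafilter_le_nhds
      (U.map fun j => M j p ρ) (by
        rw [Ultrafilter.coe_map, le_principal_iff, Filter.mem_map]
        exact Eventually.of_forall fun j => ⟨hM0 j p ρ, hM1 j p ρ⟩)
    exact ⟨L, hL⟩
  choose L hL using hlim
  have hL0 : ∀ p ρ, 0 ≤ L p ρ := fun p ρ => ge_of_tendsto' (hL p ρ) fun j => hM0 j p ρ
  have hLmono : ∀ p ρ ρ', ρ ≤ ρ' → L p ρ ≤ L p ρ' := fun p ρ ρ' h =>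
    le_of_tendsto_of_tendsto' (hL p ρ) (hL p ρ') fun j =>
      hMmono j p ρ p ρ' fun q hq => hq.trans_le h
  set a : X → ℝ := fun p => sInf (L p '' Set.Ioi 0) with ha
  have hbdd : ∀ p, BddBelow (L p '' Set.Ioi 0) := fun p =>
    ⟨0, by rintro _ ⟨ρ, -, rfl⟩; exact hL0 p ρ⟩
  have hne : ∀ p, (L p '' Set.Ioi 0).Nonempty := fun p => ⟨_, 1, by simp, rfl⟩
  have ha1 : ∀ p ρ, 0 < ρ → a p ≤ L p ρ := fun p ρ h => csInf_le (hbdd p) ⟨ρ, h, rfl⟩
  have ha0 : ∀ p, 0 ≤ a p := fun p =>
    le_csInf (hne p) (by rintro _ ⟨ρ, -, rfl⟩; exact hL0 p ρ)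
  have ha2 : ∀ p ε, 0 < ε → ∀ᶠ ρ in 𝓝[>] (0 : ℝ), L p ρ < a p + ε := by
    intro p ε hε
    obtain ⟨_, ⟨ρ₀, hρ₀, rfl⟩, h⟩ := exists_lt_of_csInf_lt (hne p) (lt_add_of_pos_right _ hε)
    filter_upwards [Ioo_mem_nhdsGT hρ₀] with ρ hρ
    exact (hLmono p ρ ρ₀ hρ.2.le).trans_lt h
  have hsum : ∀ F : Finset X, ∑ p ∈ F, a p ≤ 1 := by
    intro F
    have h1 : ∀ᶠ ρ in 𝓝[>] (0 : ℝ), ∀ p ∈ F, ∀ q ∈ F, p ≠ q → 2 * ρ < d p q := by
      rw [eventually_all_finset]
      intro p _
      rw [eventually_all_finset]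
      intro q _
      by_cases h : p = q
      · simp [h]
      · have hd := d_pos p q h
        filter_upwards [Ioo_mem_nhdsGT (show (0 : ℝ) < d p q / 2 by linarith)] with ρ hρ _
        linarith [hρ.2]
    obtain ⟨ρ, hρ, hρ0⟩ := (h1.and self_mem_nhdsWithin).exists
    have hρ0' : 0 < ρ := hρ0
    refine (Finset.sum_le_sum fun p _ => ha1 p ρ hρ0').trans ?_
    refine le_of_tendsto' (tendsto_finsetSum F fun p _ => hL p ρ) fun j => ?_
    simp only [hM]
    rw [← Ex_sum]
    refine (hνs j).Ex_le fun y _ => ?_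
    rw [← Finset.sum_filter, Finset.sum_const, nsmul_eq_mul, mul_one, Nat.cast_le_one,
      Finset.card_le_one]
    intro p hp q hq
    rw [Finset.mem_filter] at hp hq
    by_contra hpq
    have h2 := hρ p hp.1 q hq.1 hpq
    have h3 := d_tri p (y • ξ) q
    rw [d_symm p (y • ξ)] at h3
    linarith [hp.2, hq.2]
  have hst : ∀ p, a p ≤ Ex μ (fun s => a (s⁻¹ • p)) := by
    intro p
    refine le_of_forall_pos_le_add fun ε hε => ?_
    have h1 : ∀ᶠ ρ in 𝓝[>] (0 : ℝ), ∀ s ∈ μ.coeff.support, L (s⁻¹ • p) ρ < a (s⁻¹ • p) + ε := by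
      rw [eventually_all_finset]
      exact fun s _ => ha2 _ ε hε
    obtain ⟨ρ, hρ, hρ0⟩ := (h1.and self_mem_nhdsWithin).exists
    have hρ0' : 0 < ρ := hρ0
    have h2 : ∀ᶠ ρ' in 𝓝[>] (0 : ℝ), ∀ s ∈ μ.coeff.support, ∀ᶠ j in atTop,
        ∀ q, d (σ j s • q) p < ρ' → d q (s⁻¹ • p) < ρ := by
      rw [eventually_all_finset]
      intro s hs
      obtain ⟨ρ₀, hρ₀, h⟩ := hσc s hs p ρ hρ0'
      filter_upwards [Ioo_mem_nhdsGT hρ₀] with ρ' hρ'
      filter_upwards [h] with j hj q hq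
      exact hj q (hq.trans hρ'.2)
    obtain ⟨ρ', hρ', hρ'0⟩ := (h2.and self_mem_nhdsWithin).exists
    have hρ'0' : 0 < ρ' := hρ'0
    rw [← eventually_all_finset] at hρ'
    have h3 : ∀ᶠ j in atTop, M j p ρ' ≤
        ∑ s ∈ μ.coeff.support, (μs j).coeff (σ j s) * M j (s⁻¹ • p) ρ +
          (1 - ∑ s ∈ μ.coeff.support, (μs j).coeff (σ j s)) + e j := by
      filter_upwards [hρ', hσinj] with j hj hinj
      have h4 := hstat j (fun y => if d (y • ξ) p < ρ' then 1 else 0)
        (fun x => by split_ifs <;> norm_num) (fun x => by split_ifs <;> norm_num)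
      refine h4.trans (add_le_add ?_ le_rfl)
      set T := μ.coeff.support.image (σ j) with hT
      rw [Ex_eq_sum (μs j) _ ((μs j).coeff.support ∪ T) Finset.subset_union_left,
        ← Finset.sum_sdiff (Finset.subset_union_right (s₁ := (μs j).coeff.support) (s₂ := T)),
        add_comm]
      refine add_le_add ?_ ?_
      · rw [hT, Finset.sum_image hinj]
        refine Finset.sum_le_sum fun s hs => mul_le_mul_of_nonneg_left ?_ ((hμs j).nonneg _)
        refine Ex_mono (hνs j).nonneg fun y _ => ?_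
        by_cases h5 : d ((σ j s * y) • ξ) p < ρ'
        · have h6 := hj s hs (y • ξ) (by rwa [← mul_smul])
          simp [h5, h6]
        · simp only [h5, if_false]
          split_ifs <;> norm_num
      · have h5 := (hμs j).sum_le_one ((μs j).coeff.support ∪ T)
        rw [← Finset.sum_sdiff
          (Finset.subset_union_right (s₁ := (μs j).coeff.support) (s₂ := T))] at h5
        have h6 : ∑ x ∈ T, (μs j).coeff x = ∑ s ∈ μ.coeff.support, (μs j).coeff (σ j s) := by
          rw [hT, Finset.sum_image hinj]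
        refine le_trans (Finset.sum_le_sum (g := fun x => (μs j).coeff x) fun x _ => ?_)
          (by linarith)
        refine mul_le_of_le_one_right ((hμs j).nonneg x) ((hνs j).Ex_le fun y _ => ?_)
        split_ifs <;> norm_num
    have h7 : Tendsto (fun j =>
        ∑ s ∈ μ.coeff.support, (μs j).coeff (σ j s) * M j (s⁻¹ • p) ρ +
          (1 - ∑ s ∈ μ.coeff.support, (μs j).coeff (σ j s)) + e j) U
        (𝓝 (∑ s ∈ μ.coeff.support, μ.coeff s * L (s⁻¹ • p) ρ +
          (1 - ∑ s ∈ μ.coeff.support, μ.coeff s) + 0)) := by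
      refine Tendsto.add (Tendsto.add ?_ (tendsto_const_nhds.sub ?_)) (he.mono_left hUle)
      · exact tendsto_finsetSum _ fun s hs => ((hσw s hs).mono_left hUle).mul (hL _ _)
      · exact tendsto_finsetSum _ fun s hs => (hσw s hs).mono_left hUle
    have h8 := le_of_tendsto_of_tendsto (hL p ρ') h7 (hUle h3)
    rw [hμ.total, sub_self, add_zero, add_zero] at h8
    refine (ha1 p ρ' hρ'0').trans (h8.trans ?_)
    rw [← hμ.Ex_const ε, ← Ex_add]
    exact Ex_mono (φ := fun s => L (s⁻¹ • p) ρ) hμ.nonneg fun s hs => by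
      simpa [hμ.Ex_const] using (hρ s hs).le
  obtain ⟨p₀, hp₀⟩ := d_cpt U u
  have hbig' : η ≤ a p₀ := by
    refine le_csInf (hne p₀) ?_
    rintro _ ⟨ρ, hρ, rfl⟩
    have hρ' : (0 : ℝ) < ρ / 2 := by have : 0 < ρ := hρ; linarith
    refine ge_of_tendsto (hL p₀ ρ) ?_
    filter_upwards [hp₀.eventually (gt_mem_nhds hρ'),
      (hδ.mono_left hUle).eventually (gt_mem_nhds hρ')] with j h1 h2
    refine (hbig j).trans (hMmono j (u j) (δ j) p₀ ρ fun q hq => ?_)
    linarith [d_tri q (u j) p₀]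
  exact exists_max_invariant a hsum hη p₀ hbig' μ hμ hst

end Pool.Agent.MP_56e4d4_pr

end

section

/-!
A walk preserving a finite set whose point stabilisers are commutative has zero entropy.
-/

open Filter Topology Finset

namespace Pool.Agent.MP_56e4d4_pr

lemma comm_growth {C : Type*} [CommGroup C] [DecidableEq C] (U : Finset C) (k : ℕ) :
    ∃ W : Finset C, W.card ≤ (k + 1) ^ U.card ∧
      ∀ l : List C, l.length = k → (∀ u ∈ l, u ∈ U) → l.prod ∈ W := by
  classical
  refine ⟨(Fintype.piFinset fun _ : U => Finset.range (k + 1)).image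
    fun e => ∏ u : U, (u : C) ^ e u, ?_, ?_⟩
  · refine Finset.card_image_le.trans ?_
    simp
  · intro l hl hU
    have key : ∀ l : List C, (∀ u ∈ l, u ∈ U) →
        ∃ e : U → ℕ, (∀ u, e u ≤ l.length) ∧ l.prod = ∏ u : U, (u : C) ^ e u := by
      intro l
      induction l with
      | nil => exact fun _ => ⟨fun _ => 0, by simp, by simp⟩
      | cons a l ih =>
        intro h
        obtain ⟨e, he, hp⟩ := ih fun u hu => h u (List.mem_cons_of_mem _ hu)
        have ha : a ∈ U := h a List.mem_cons_self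
        refine ⟨fun u => e u + if u = ⟨a, ha⟩ then 1 else 0, fun u => ?_, ?_⟩
        · have := he u
          simp only [List.length_cons]
          split_ifs <;> omega
        · simp only [List.prod_cons, hp, pow_add, Finset.prod_mul_distrib, pow_ite, pow_one,
            pow_zero, Finset.prod_ite_eq', Finset.mem_univ, if_true]
          exact mul_comm _ _
    obtain ⟨e, he, hp⟩ := key l hU
    refine Finset.mem_image.mpr ⟨e, ?_, hp.symm⟩
    simp only [Fintype.mem_piFinset, Finset.mem_range]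
    intro u
    have := he u
    omega

variable {G X : Type*} [Group G] [MulAction G X]

lemma tendsto_log_poly (a b : ℕ) (ha : a ≠ 0) :
    Tendsto (fun k : ℕ => Real.log ((a : ℝ) * ((k : ℝ) + 1) ^ b) / k) atTop (𝓝 0) := by
  have ha' : (0 : ℝ) < a := by exact_mod_cast Nat.pos_of_ne_zero ha
  have t1 : Tendsto (fun k : ℕ => Real.log a / k) atTop (𝓝 0) :=
    tendsto_const_div_atTop_nhds_zero_nat _
  have t2 : Tendsto (fun x : ℝ => Real.log x / (x - 1)) atTop (𝓝 0) := by
    have := Real.tendsto_pow_log_div_mul_add_atTop 1 (-1) 1 one_ne_zero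
    simpa [sub_eq_add_neg] using this
  have t3 : Tendsto (fun k : ℕ => (k : ℝ) + 1) atTop atTop :=
    tendsto_atTop_add_const_right _ _ tendsto_natCast_atTop_atTop
  have t4 := t1.add ((t2.comp t3).const_mul (b : ℝ))
  simp only [mul_zero, add_zero] at t4
  refine t4.congr fun k => ?_
  have : (0 : ℝ) < (k : ℝ) + 1 := by positivity
  rw [Real.log_mul ha'.ne' (by positivity), Real.log_pow]
  simp only [Function.comp, add_sub_cancel_right]
  ring

theorem hh_eq_zero_of_invariant (μ : MonoidAlgebra ℝ G) (hμ : IsProb μ) (Γ : Subgroup G)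
    (hΓ : ∀ s ∈ μ.coeff.support, s ∈ Γ)
    (hcomm : ∀ p : X, ∀ g ∈ Γ, ∀ h ∈ Γ, g • p = p → h • p = p → g * h = h * g)
    (F : Finset X) (hF : F.Nonempty) (hinv : ∀ s ∈ μ.coeff.support, ∀ p ∈ F, s⁻¹ • p ∈ F) :
    hh μ = 0 := by
  classical
  obtain ⟨p₀, hp₀⟩ := hF
  have hinv' : ∀ s ∈ μ.coeff.support, ∀ p ∈ F, s • p ∈ F := by
    intro s hs p hp
    have hsurj : Set.SurjOn (fun q => s⁻¹ • q) (F : Set X) F :=
      (Finset.surjOn_of_injOn_of_card_le (fun q => s⁻¹ • q) (fun q hq => hinv s hs q hq)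
        (MulAction.injective s⁻¹).injOn le_rfl)
    obtain ⟨q, hq, hqp⟩ := hsurj hp
    have : s • p = q := by rw [← hqp]; simp
    rw [this]
    exact hq
  set C : Subgroup G := Γ ⊓ MulAction.stabilizer G p₀ with hC
  let _ : CommGroup C :=
    { (inferInstance : Group C) with
      mul_comm := fun a b => Subtype.ext (hcomm p₀ a a.2.1 b b.2.1 a.2.2 b.2.2) }
  have ht : ∀ q : X, ∃ t ∈ Γ, (∃ g ∈ Γ, g • p₀ = q) → t • p₀ = q := by
    intro q
    by_cases h : ∃ g ∈ Γ, g • p₀ = q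
    · obtain ⟨g, hg, hq⟩ := h
      exact ⟨g, hg, fun _ => hq⟩
    · exact ⟨1, Γ.one_mem, fun h' => absurd h' h⟩
  choose t htΓ ht using ht
  set v : G → X → C := fun s q =>
    if h : (t (s • q))⁻¹ * s * t q ∈ C then ⟨_, h⟩ else 1 with hv
  set U : Finset C := (μ.coeff.support ×ˢ F).image fun sq => v sq.1 sq.2 with hU
  have key : ∀ k : ℕ, ∀ x ∈ (μ ^ k).coeff.support, x ∈ Γ ∧ x • p₀ ∈ F ∧
      ∃ l : List C, l.length = k ∧ (∀ u ∈ l, u ∈ U) ∧ x * t p₀ = t (x • p₀) * (l.prod : C) := by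
    intro k
    induction k with
    | zero =>
      intro x hx
      have : x = 1 := by
        rw [pow_zero, MonoidAlgebra.one_def, MonoidAlgebra.coeff_single] at hx
        simpa using Finsupp.support_single_subset hx
      subst this
      exact ⟨Γ.one_mem, by simpa using hp₀, [], rfl, by simp, by simp⟩
    | succ k ih =>
      intro x hx
      rw [pow_succ'] at hx
      obtain ⟨s, hs, y, hy, rfl⟩ := mem_support_mul hx
      obtain ⟨hyΓ, hyF, l, hl, hlU, hprod⟩ := ih y hy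
      have hsΓ := hΓ s hs
      refine ⟨Γ.mul_mem hsΓ hyΓ, by rw [mul_smul]; exact hinv' s hs _ hyF,
        v s (y • p₀) :: l, by simp [hl], ?_, ?_⟩
      · intro u hu
        rcases List.mem_cons.mp hu with rfl | hu
        · exact Finset.mem_image.mpr ⟨(s, y • p₀), Finset.mem_product.mpr ⟨hs, hyF⟩, rfl⟩
        · exact hlU u hu
      · have h1 : t (y • p₀) • p₀ = y • p₀ := ht _ ⟨y, hyΓ, rfl⟩
        have h2 : t (s • y • p₀) • p₀ = s • y • p₀ :=
          ht _ ⟨s * y, Γ.mul_mem hsΓ hyΓ, mul_smul _ _ _⟩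
        have hmem : (t (s • y • p₀))⁻¹ * s * t (y • p₀) ∈ C := by
          refine ⟨Γ.mul_mem (Γ.mul_mem (Γ.inv_mem (htΓ _)) hsΓ) (htΓ _), ?_⟩
          change ((t (s • y • p₀))⁻¹ * s * t (y • p₀)) • p₀ = p₀
          rw [mul_smul, mul_smul, h1, inv_smul_eq_iff, h2]
        have h3 : (v s (y • p₀) : G) = (t (s • y • p₀))⁻¹ * s * t (y • p₀) := by
          simp only [hv, dif_pos hmem]
        rw [List.prod_cons, Subgroup.coe_mul, h3, mul_assoc s y, hprod, mul_smul]
        group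
  have hcard : ∀ k : ℕ, ((μ ^ k).coeff.support.card : ℝ) ≤ F.card * ((k : ℝ) + 1) ^ U.card := by
    intro k
    obtain ⟨W, hW, hWmem⟩ := comm_growth U k
    have h1 : (μ ^ k).coeff.support ⊆
        (F ×ˢ W).image fun qw => t qw.1 * (qw.2 : G) * (t p₀)⁻¹ := by
      intro x hx
      obtain ⟨-, hxF, l, hl, hlU, hprod⟩ := key k x hx
      refine Finset.mem_image.mpr ⟨(x • p₀, l.prod), Finset.mem_product.mpr
        ⟨hxF, hWmem l hl hlU⟩, ?_⟩
      simp only
      rw [← hprod]
      group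
    have h2 := (Finset.card_le_card h1).trans Finset.card_image_le
    rw [Finset.card_product] at h2
    have h3 : (μ ^ k).coeff.support.card ≤ F.card * (k + 1) ^ U.card :=
      h2.trans (Nat.mul_le_mul_left _ hW)
    exact_mod_cast h3
  refine le_antisymm ?_ (hh_nonneg hμ)
  refine le_of_tendsto_of_tendsto' (tendsto_hh hμ)
    (tendsto_log_poly F.card U.card (Finset.card_ne_zero.mpr ⟨p₀, hp₀⟩)) fun k => ?_
  exact div_le_div_of_nonneg_right ((hμ.pow k).Ent_le_log_card (hcard k)) (Nat.cast_nonneg k)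

end Pool.Agent.MP_56e4d4_pr

end
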