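import Mathlib
import Pool.Agent.Mg.F56e4d4.G762911
import Pool.Agent.MP_56e4d4_pr.Defs

section

/-!
Elementary geometry of `PSL(2, ℝ)` acting on the projective line.
-/

open Filter Topology Matrix
open scoped MatrixGroups LinearAlgebra.Projectivization

namespace Pool.Agent.MP_56e4d4_pr

/-- The `l¹` norm of a vector. -/
def n1 (v : Fin 2 → ℝ) : ℝ := |v 0| + |v 1|

/-- The determinant of two vectors. -/
def dt (v w : Fin 2 → ℝ) : ℝ := v 0 * w 1 - v 1 * w 0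

/-- The sum of the absolute values of the entries. -/
def Nm (A : Matrix (Fin 2) (Fin 2) ℝ) : ℝ := |A 0 0| + |A 0 1| + |A 1 0| + |A 1 1|

lemma n1_nonneg (v : Fin 2 → ℝ) : 0 ≤ n1 v := by unfold n1; positivity

lemma Nm_nonneg (A : Matrix (Fin 2) (Fin 2) ℝ) : 0 ≤ Nm A := by unfold Nm; positivity

lemma n1_pos {v : Fin 2 → ℝ} (hv : v ≠ 0) : 0 < n1 v := by
  refine lt_of_le_of_ne (n1_nonneg v) fun h => hv ?_
  unfold n1 at h
  have h0 : |v 0| = 0 := by linarith [abs_nonneg (v 0), abs_nonneg (v 1)]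
  have h1 : |v 1| = 0 := by linarith [abs_nonneg (v 0), abs_nonneg (v 1)]
  ext i
  fin_cases i
  · simpa using h0
  · simpa using h1

lemma n1_smul (c : ℝ) (v : Fin 2 → ℝ) : n1 (c • v) = |c| * n1 v := by
  simp [n1, abs_mul, mul_add]

lemma n1_neg (v : Fin 2 → ℝ) : n1 (-v) = n1 v := by simp [n1]

lemma n1_add_le (v w : Fin 2 → ℝ) : n1 (v + w) ≤ n1 v + n1 w := by
  simp only [n1, Pi.add_apply]
  linarith [abs_add_le (v 0) (w 0), abs_add_le (v 1) (w 1)]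

lemma mulVec_zero' (A : Matrix (Fin 2) (Fin 2) ℝ) (v : Fin 2 → ℝ) :
    (A *ᵥ v) 0 = A 0 0 * v 0 + A 0 1 * v 1 := by
  simp [Matrix.mulVec, dotProduct, Fin.sum_univ_two]

lemma mulVec_one' (A : Matrix (Fin 2) (Fin 2) ℝ) (v : Fin 2 → ℝ) :
    (A *ᵥ v) 1 = A 1 0 * v 0 + A 1 1 * v 1 := by
  simp [Matrix.mulVec, dotProduct, Fin.sum_univ_two]

lemma n1_mulVec (A : Matrix (Fin 2) (Fin 2) ℝ) (v : Fin 2 → ℝ) :
    n1 (A *ᵥ v) ≤ Nm A * n1 v := by
  simp only [n1, Nm, mulVec_zero', mulVec_one']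
  have h1 := abs_add_le (A 0 0 * v 0) (A 0 1 * v 1)
  have h2 := abs_add_le (A 1 0 * v 0) (A 1 1 * v 1)
  simp only [abs_mul] at h1 h2
  have := abs_nonneg (A 0 0); have := abs_nonneg (A 0 1); have := abs_nonneg (A 1 0)
  have := abs_nonneg (A 1 1); have := abs_nonneg (v 0); have := abs_nonneg (v 1)
  nlinarith [mul_nonneg (abs_nonneg (A 0 0)) (abs_nonneg (v 1)),
    mul_nonneg (abs_nonneg (A 0 1)) (abs_nonneg (v 0)),
    mul_nonneg (abs_nonneg (A 1 0)) (abs_nonneg (v 1)),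
    mul_nonneg (abs_nonneg (A 1 1)) (abs_nonneg (v 0))]

lemma Nm_eq_cols (A : Matrix (Fin 2) (Fin 2) ℝ) :
    Nm A = n1 (A *ᵥ ![1, 0]) + n1 (A *ᵥ ![0, 1]) := by
  simp only [n1, Nm, mulVec_zero', mulVec_one']
  simp
  ring

lemma Nm_mul (A B : Matrix (Fin 2) (Fin 2) ℝ) : Nm (A * B) ≤ Nm A * Nm B := by
  rw [Nm_eq_cols (A * B), Nm_eq_cols B, ← Matrix.mulVec_mulVec, ← Matrix.mulVec_mulVec, mul_add]
  exact add_le_add (n1_mulVec _ _) (n1_mulVec _ _)

lemma Nm_neg (A : Matrix (Fin 2) (Fin 2) ℝ) : Nm (-A) = Nm A := by simp [Nm]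

lemma Nm_smul (c : ℝ) (A : Matrix (Fin 2) (Fin 2) ℝ) : Nm (c • A) = |c| * Nm A := by
  simp [Nm, abs_mul, mul_add]

lemma Nm_add_le (A B : Matrix (Fin 2) (Fin 2) ℝ) : Nm (A + B) ≤ Nm A + Nm B := by
  simp only [Nm, Matrix.add_apply]
  linarith [abs_add_le (A 0 0) (B 0 0), abs_add_le (A 0 1) (B 0 1), abs_add_le (A 1 0) (B 1 0),
    abs_add_le (A 1 1) (B 1 1)]

@[simp] lemma Nm_zero : Nm 0 = 0 := by simp [Nm]

lemma Nm_eq_zero {A : Matrix (Fin 2) (Fin 2) ℝ} (h : Nm A = 0) : A = 0 := by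
  unfold Nm at h
  have := abs_nonneg (A 0 0); have := abs_nonneg (A 0 1); have := abs_nonneg (A 1 0)
  have := abs_nonneg (A 1 1)
  have h00 : |A 0 0| = 0 := by linarith
  have h01 : |A 0 1| = 0 := by linarith
  have h10 : |A 1 0| = 0 := by linarith
  have h11 : |A 1 1| = 0 := by linarith
  ext i j
  fin_cases i <;> fin_cases j
  · simpa using h00
  · simpa using h01
  · simpa using h10
  · simpa using h11

lemma abs_entry_le (A : Matrix (Fin 2) (Fin 2) ℝ) (i j : Fin 2) : |A i j| ≤ Nm A := by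
  unfold Nm
  have := abs_nonneg (A 0 0); have := abs_nonneg (A 0 1); have := abs_nonneg (A 1 0)
  have := abs_nonneg (A 1 1)
  fin_cases i <;> fin_cases j <;> simp <;> linarith

@[fun_prop]
lemma continuous_Nm : Continuous Nm := by
  unfold Nm
  fun_prop

lemma det_eq (g : SL(2, ℝ)) : g.1 0 0 * g.1 1 1 - g.1 0 1 * g.1 1 0 = 1 := by
  have := g.2
  rwa [Matrix.det_fin_two] at this

lemma Nm_inv (g : SL(2, ℝ)) : Nm (g⁻¹ : SL(2, ℝ)).1 = Nm g.1 := by
  rw [Matrix.SpecialLinearGroup.coe_inv, Matrix.adjugate_fin_two]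
  simp [Nm]
  ring

lemma one_le_Nm (g : SL(2, ℝ)) : 1 ≤ Nm g.1 := by
  have h := det_eq g
  have h1 : (1 : ℝ) ≤ |g.1 0 0| * |g.1 1 1| + |g.1 0 1| * |g.1 1 0| := by
    rw [← abs_mul, ← abs_mul]
    linarith [le_abs_self (g.1 0 0 * g.1 1 1), neg_abs_le (g.1 0 1 * g.1 1 0)]
  unfold Nm
  have := abs_nonneg (g.1 0 0); have := abs_nonneg (g.1 0 1); have := abs_nonneg (g.1 1 0)
  have := abs_nonneg (g.1 1 1)
  by_contra hlt
  push Not at hlt
  nlinarith

lemma dt_mulVec (g : SL(2, ℝ)) (v w : Fin 2 → ℝ) : dt (g.1 *ᵥ v) (g.1 *ᵥ w) = dt v w := by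
  simp only [dt, mulVec_zero', mulVec_one']
  linear_combination (v 0 * w 1 - v 1 * w 0) * det_eq g

lemma abs_dt_le (v w : Fin 2 → ℝ) : |dt v w| ≤ n1 v * n1 w := by
  unfold dt n1
  have h := abs_sub (v 0 * w 1) (v 1 * w 0)
  simp only [abs_mul] at h
  nlinarith [mul_nonneg (abs_nonneg (v 0)) (abs_nonneg (w 0)),
    mul_nonneg (abs_nonneg (v 1)) (abs_nonneg (w 1))]

lemma dt_smul_smul (a b : ℝ) (v w : Fin 2 → ℝ) : dt (a • v) (b • w) = a * b * dt v w := by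
  simp only [dt, Pi.smul_apply, smul_eq_mul]
  ring

lemma dt_identity (v v' w : Fin 2 → ℝ) : dt v v' • w = dt w v' • v + dt v w • v' := by
  ext i
  fin_cases i <;> simp [dt] <;> ring

lemma dt_ineq (A : Matrix (Fin 2) (Fin 2) ℝ) (v v' w : Fin 2 → ℝ) :
    |dt v v'| * n1 (A *ᵥ w) ≤ |dt w v'| * n1 (A *ᵥ v) + |dt v w| * n1 (A *ᵥ v') := by
  rw [← n1_smul, ← n1_smul, ← n1_smul, ← Matrix.mulVec_smul, dt_identity, Matrix.mulVec_add,
    Matrix.mulVec_smul, Matrix.mulVec_smul]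
  exact n1_add_le _ _

lemma mk_eq_mk {g h : SL(2, ℝ)} (e : (g : PSL(2, ℝ)) = h) : g.1 = h.1 ∨ g.1 = -h.1 := by
  rw [QuotientGroup.eq, Matrix.SpecialLinearGroup.mem_center_iff] at e
  obtain ⟨r, hr, he⟩ := e
  have h1 : h.1 = g.1 * Matrix.scalar (Fin 2) r := by
    rw [he, ← Matrix.SpecialLinearGroup.coe_mul]
    simp
  rw [Fintype.card_fin] at hr
  have : (r - 1) * (r + 1) = 0 := by linear_combination hr
  rcases mul_eq_zero.mp this with h2 | h2
  · left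
    have : r = 1 := by linarith
    simp [h1, this]
  · right
    have : r = -1 := by linarith
    rw [h1, this, map_neg, map_one]
    simp

lemma mk_neg (g : SL(2, ℝ)) : ((-g : SL(2, ℝ)) : PSL(2, ℝ)) = g := by
  rw [QuotientGroup.eq, Matrix.SpecialLinearGroup.mem_center_iff]
  refine ⟨-1, by simp, ?_⟩
  rw [map_neg, map_one]
  simp

/-- The size of an element of `PSL(2, ℝ)`. -/
noncomputable def NN (x : PSL(2, ℝ)) : ℝ := Nm (x.out : SL(2, ℝ)).1

lemma NN_mk (g : SL(2, ℝ)) : NN (g : PSL(2, ℝ)) = Nm g.1 := by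
  unfold NN
  rcases mk_eq_mk (QuotientGroup.out_eq' (g : PSL(2, ℝ))) with h | h
  · rw [h]
  · rw [h, Nm_neg]

lemma one_le_NN (x : PSL(2, ℝ)) : 1 ≤ NN x := one_le_Nm _

lemma NN_mul (x y : PSL(2, ℝ)) : NN (x * y) ≤ NN x * NN y := by
  induction x using QuotientGroup.induction_on with | H g =>
  induction y using QuotientGroup.induction_on with | H h =>
  rw [← QuotientGroup.mk_mul, NN_mk, NN_mk, NN_mk]
  exact Nm_mul _ _

lemma continuous_NN : Continuous NN := by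
  rw [(QuotientGroup.isQuotientMap_mk _).continuous_iff]
  have : NN ∘ (QuotientGroup.mk : SL(2, ℝ) → PSL(2, ℝ)) = fun g => Nm g.1 := funext NN_mk
  rw [this]
  exact continuous_Nm.comp continuous_subtype_val

lemma tendsto_SL_iff {ι : Type*} {l : Filter ι} {g : ι → SL(2, ℝ)} {h : SL(2, ℝ)} :
    Tendsto g l (𝓝 h) ↔ Tendsto (fun i => Nm ((g i).1 - h.1)) l (𝓝 0) := by
  constructor
  · intro H
    have hc : Continuous fun x : SL(2, ℝ) => Nm (x.1 - h.1) :=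
      continuous_Nm.comp (continuous_subtype_val.sub continuous_const)
    have := (hc.tendsto h).comp H
    simpa [Function.comp_def] using this
  · intro H
    refine Matrix.SpecialLinearGroup.isClosedEmbedding_val.isEmbedding.tendsto_nhds_iff.mpr ?_
    refine tendsto_pi_nhds.mpr fun i => tendsto_pi_nhds.mpr fun j => ?_
    rw [tendsto_iff_norm_sub_tendsto_zero]
    exact squeeze_zero (fun _ => norm_nonneg _) (fun k => abs_entry_le ((g k).1 - h.1) i j) H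

/-- Distance of a class to the class of `g`. -/
noncomputable def DD (g : SL(2, ℝ)) (x : PSL(2, ℝ)) : ℝ :=
  min (Nm ((x.out : SL(2, ℝ)).1 - g.1)) (Nm ((x.out : SL(2, ℝ)).1 + g.1))

lemma DD_mk (g h : SL(2, ℝ)) : DD g (h : PSL(2, ℝ)) = min (Nm (h.1 - g.1)) (Nm (h.1 + g.1)) := by
  unfold DD
  rcases mk_eq_mk (QuotientGroup.out_eq' (h : PSL(2, ℝ))) with e | e
  · rw [e]
  · rw [e, min_comm, ← Nm_neg (h.1 - g.1), ← Nm_neg (h.1 + g.1)]
    congr 2 <;> abel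

lemma continuous_DD (g : SL(2, ℝ)) : Continuous (DD g) := by
  rw [(QuotientGroup.isQuotientMap_mk _).continuous_iff]
  have : DD g ∘ (QuotientGroup.mk : SL(2, ℝ) → PSL(2, ℝ)) =
      fun h => min (Nm (h.1 - g.1)) (Nm (h.1 + g.1)) := funext (DD_mk g)
  rw [this]
  exact (continuous_Nm.comp (continuous_subtype_val.sub continuous_const)).min
    (continuous_Nm.comp (continuous_subtype_val.add continuous_const))

lemma exists_lift {ι : Type*} {l : Filter ι} {x : ι → PSL(2, ℝ)} {g : SL(2, ℝ)}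
    (h : Tendsto x l (𝓝 (g : PSL(2, ℝ)))) :
    ∃ g' : ι → SL(2, ℝ), (∀ i, (g' i : PSL(2, ℝ)) = x i) ∧ Tendsto g' l (𝓝 g) := by
  have h1 : ∀ y : PSL(2, ℝ), ∃ k : SL(2, ℝ), (k : PSL(2, ℝ)) = y ∧ Nm (k.1 - g.1) = DD g y := by
    intro y
    unfold DD
    rcases le_total (Nm ((y.out : SL(2, ℝ)).1 - g.1)) (Nm ((y.out : SL(2, ℝ)).1 + g.1)) with e | e
    · exact ⟨y.out, QuotientGroup.out_eq' y, (min_eq_left e).symm⟩
    · refine ⟨-y.out, by rw [mk_neg, QuotientGroup.out_eq'], ?_⟩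
      rw [min_eq_right e, ← Nm_neg, Matrix.SpecialLinearGroup.coe_neg]
      congr 1
      abel
  choose k hk hk' using h1
  refine ⟨fun i => k (x i), fun i => hk _, tendsto_SL_iff.mpr ?_⟩
  simp only [hk']
  have := ((continuous_DD g).tendsto _).comp h
  rw [DD_mk, sub_self, Nm_zero, min_eq_left (Nm_nonneg _)] at this
  exact this

instance : T2Space PSL(2, ℝ) := by
  have : T1Space PSL(2, ℝ) := by
    refine IsTopologicalGroup.t1Space _ ?_
    have : ({1} : Set PSL(2, ℝ)) = DD 1 ⁻¹' {0} := by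
      ext x
      induction x using QuotientGroup.induction_on with | H g =>
      simp only [Set.mem_singleton_iff, Set.mem_preimage, DD_mk]
      constructor
      · intro e
        rcases mk_eq_mk (h := 1) e with e | e
        · rw [e, sub_self, Nm_zero, min_eq_left (Nm_nonneg _)]
        · rw [e, neg_add_cancel, Nm_zero, min_eq_right (Nm_nonneg _)]
      · intro e
        rcases min_eq_iff.mp e with ⟨e, -⟩ | ⟨e, -⟩
        · have : g = 1 := Subtype.ext (sub_eq_zero.mp (Nm_eq_zero e))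
          rw [this]
          rfl
        · have : g = -1 := Subtype.ext (eq_neg_of_add_eq_zero_left (Nm_eq_zero e))
          rw [this, mk_neg]
          rfl
    rw [this]
    exact isClosed_singleton.preimage (continuous_DD 1)
  infer_instance

lemma isCompact_ball (R : ℝ) : IsCompact {g : SL(2, ℝ) | Nm g.1 ≤ R} := by
  refine Matrix.SpecialLinearGroup.isClosedEmbedding_val.isCompact_preimage
    (K := {A | Nm A ≤ R}) ?_
  have h1 : IsCompact (Set.univ.pi fun _ : Fin 2 => Set.univ.pi fun _ : Fin 2 => Set.Icc (-R) R) :=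
    isCompact_univ_pi fun _ => isCompact_univ_pi fun _ => isCompact_Icc
  refine h1.of_isClosed_subset (isClosed_le continuous_Nm continuous_const) ?_
  intro A hA i _ j _
  exact abs_le.mp ((abs_entry_le A i j).trans hA)

lemma finite_ball (Γ : Subgroup PSL(2, ℝ)) [DiscreteTopology Γ] (R : ℝ) :
    {x | x ∈ Γ ∧ NN x ≤ R}.Finite := by
  have h1 : IsCompact ((QuotientGroup.mk : SL(2, ℝ) → PSL(2, ℝ)) '' {g | Nm g.1 ≤ R}) :=
    (isCompact_ball R).image QuotientGroup.continuous_mk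
  have h2 : IsClosed (Γ : Set PSL(2, ℝ)) := Subgroup.isClosed_of_discrete
  have h3 := (h1.inter_right h2).finite
    ((isDiscrete_iff_discreteTopology.mpr ‹_›).mono Set.inter_subset_right)
  refine h3.subset ?_
  rintro x ⟨hx, hR⟩
  exact ⟨⟨x.out, hR, QuotientGroup.out_eq' x⟩, hx⟩

lemma discrete_gap (Γ : Subgroup PSL(2, ℝ)) [DiscreteTopology Γ] :
    ∃ δ > 0, δ ≤ 1 ∧ ∀ g : SL(2, ℝ), (g : PSL(2, ℝ)) ∈ Γ → Nm (g.1 - 1) ≤ δ → g = 1 := by
  by_contra hcon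
  push Not at hcon
  have h1 : ∀ n : ℕ, ∃ g : SL(2, ℝ), (g : PSL(2, ℝ)) ∈ Γ ∧ Nm (g.1 - 1) ≤ 1 / ((n : ℝ) + 1) ∧
      g ≠ 1 := fun n => hcon _ (by positivity)
        (by rw [div_le_one (by positivity)]; linarith [(Nat.cast_nonneg n : (0 : ℝ) ≤ n)])
  choose g hg hg1 hg2 using h1
  have h2 : Tendsto g atTop (𝓝 1) :=
    tendsto_SL_iff.mpr (squeeze_zero (fun _ => Nm_nonneg _) hg1
      tendsto_one_div_add_atTop_nhds_zero_nat)
  have h3 : Tendsto (fun n => (⟨g n, hg n⟩ : Γ)) atTop (𝓝 1) :=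
    tendsto_subtype_rng.mpr ((QuotientGroup.continuous_mk.tendsto 1).comp h2)
  rw [nhds_discrete, tendsto_pure] at h3
  obtain ⟨n, hn⟩ := h3.exists
  rcases mk_eq_mk (h := 1) (congrArg Subtype.val hn) with e | e
  · exact hg2 n (Subtype.ext e)
  · have h4 := hg1 n
    rw [e] at h4
    have h5 : 1 / ((n : ℝ) + 1) ≤ 1 := by
      rw [div_le_one (by positivity)]; linarith [(Nat.cast_nonneg n : (0 : ℝ) ≤ n)]
    norm_num [Nm] at h4
    rw [one_div] at h5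
    linarith

lemma exists_pow_annulus {δ : ℝ} (hδ : 0 < δ) (hδ1 : δ ≤ 1) (n : ℕ) :
    ∀ g : SL(2, ℝ), δ * (2 / 3) ^ n ≤ Nm (g.1 - 1) → Nm (g.1 - 1) ≤ δ →
      ∃ k : ℕ, δ / 3 ≤ Nm ((g ^ k).1 - 1) ∧ Nm ((g ^ k).1 - 1) ≤ δ := by
  induction n with
  | zero => exact fun g h1 h2 => ⟨1, by simp only [pow_zero, pow_one] at h1 ⊢; linarith,
      by simpa using h2⟩
  | succ n ih =>
    intro g h1 h2
    by_cases h3 : δ / 3 ≤ Nm (g.1 - 1)
    · exact ⟨1, by simpa using h3, by simpa using h2⟩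
    · push Not at h3
      have e : (g ^ 2).1 - 1 = (2 : ℝ) • (g.1 - 1) + (g.1 - 1) * (g.1 - 1) := by
        rw [pow_two, Matrix.SpecialLinearGroup.coe_mul, two_smul]
        noncomm_ring
      have e' : (2 : ℝ) • (g.1 - 1) = ((g ^ 2).1 - 1) + -((g.1 - 1) * (g.1 - 1)) := by
        rw [e]; abel
      have t0 := Nm_nonneg (g.1 - 1)
      have t1 := Nm_mul (g.1 - 1) (g.1 - 1)
      have t2 := Nm_add_le ((2 : ℝ) • (g.1 - 1)) ((g.1 - 1) * (g.1 - 1))
      have t3 := Nm_add_le ((g ^ 2).1 - 1) (-((g.1 - 1) * (g.1 - 1)))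
      rw [← e', Nm_neg] at t3
      rw [← e] at t2
      rw [Nm_smul, abs_two] at t2 t3
      have t4 : Nm (g.1 - 1) * Nm (g.1 - 1) ≤ Nm (g.1 - 1) * (1 / 3) :=
        mul_le_mul_of_nonneg_left (by linarith) t0
      obtain ⟨k, hk⟩ := ih (g ^ 2) (by rw [pow_succ] at h1; linarith) (by linarith)
      exact ⟨2 * k, by rwa [pow_mul]⟩

/-- Uniform discreteness of groups converging geometrically to a discrete group. -/
lemma eventually_eq_one (Γ : Subgroup PSL(2, ℝ)) [DiscreteTopology Γ]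
    (Γs : ℕ → Subgroup PSL(2, ℝ))
    (hlim : ∀ (φ : ℕ → ℕ) (a : ℕ → PSL(2, ℝ)) (b : PSL(2, ℝ)), StrictMono φ →
      (∀ k, a k ∈ Γs (φ k)) → Tendsto a atTop (𝓝 b) → b ∈ Γ)
    (γ : ℕ → PSL(2, ℝ)) (hγ : ∀ n, γ n ∈ Γs n) (h1 : Tendsto γ atTop (𝓝 1)) :
    ∀ᶠ n in atTop, γ n = 1 := by
  by_contra hcon
  obtain ⟨δ, hδ, hδ1, hgap⟩ := discrete_gap Γ
  obtain ⟨g, hg, hg1⟩ := exists_lift (g := 1) h1
  have h2 : ∀ᶠ n in atTop, Nm ((g n).1 - 1) ≤ δ :=
    (tendsto_SL_iff.mp hg1).eventually (ge_mem_nhds hδ)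
  have h3 : ∃ᶠ n in atTop, γ n ≠ 1 ∧ Nm ((g n).1 - 1) ≤ δ :=
    (not_eventually.mp hcon).and_eventually h2
  obtain ⟨φ, hφ, hφ'⟩ := extraction_of_frequently_atTop h3
  have h4 : ∀ j, ∃ k : ℕ, δ / 3 ≤ Nm ((g (φ j) ^ k).1 - 1) ∧ Nm ((g (φ j) ^ k).1 - 1) ≤ δ := by
    intro j
    have hpos : 0 < Nm ((g (φ j)).1 - 1) := by
      refine lt_of_le_of_ne (Nm_nonneg _) fun e => (hφ' j).1 ?_
      have : g (φ j) = 1 := Subtype.ext (sub_eq_zero.mp (Nm_eq_zero e.symm))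
      rw [← hg, this]
      rfl
    obtain ⟨n, hn⟩ := exists_pow_lt_of_lt_one (div_pos hpos hδ) (show (2 / 3 : ℝ) < 1 by norm_num)
    rw [lt_div_iff₀ hδ] at hn
    exact exists_pow_annulus hδ hδ1 n _ (by linarith) (hφ' j).2
  choose k hk1 hk2 using h4
  have : FirstCountableTopology (Matrix (Fin 2) (Fin 2) ℝ) :=
    inferInstanceAs (FirstCountableTopology (Fin 2 → Fin 2 → ℝ))
  have : FirstCountableTopology SL(2, ℝ) :=
    Matrix.SpecialLinearGroup.isClosedEmbedding_val.isEmbedding.firstCountableTopology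
  obtain ⟨h, -, ψ, hψ, hlim'⟩ := (isCompact_ball 3).tendsto_subseq
    (x := fun j => g (φ j) ^ k j) (fun j => by
      have t := Nm_add_le ((g (φ j) ^ k j).1 - 1) 1
      rw [sub_add_cancel] at t
      have : Nm 1 = 2 := by norm_num [Nm]
      have := hk2 j
      change Nm _ ≤ 3
      linarith)
  have hmem : (h : PSL(2, ℝ)) ∈ Γ := by
    refine hlim (φ ∘ ψ) (fun j => ((g (φ (ψ j)) ^ k (ψ j) : SL(2, ℝ)) : PSL(2, ℝ))) h
      (hφ.comp hψ) (fun j => ?_) ((QuotientGroup.continuous_mk.tendsto h).comp hlim')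
    rw [QuotientGroup.mk_pow, hg]
    exact Subgroup.pow_mem _ (hγ _) _
  have hc : Continuous fun x : SL(2, ℝ) => Nm (x.1 - 1) :=
    continuous_Nm.comp (continuous_subtype_val.sub continuous_const)
  have h5 := (hc.tendsto h).comp hlim'
  have h6 : Nm (h.1 - 1) ≤ δ := le_of_tendsto' h5 fun j => hk2 _
  have h7 : δ / 3 ≤ Nm (h.1 - 1) := ge_of_tendsto' h5 fun j => hk1 _
  rw [hgap h hmem h6] at h7
  simp [Nm] at h7
  linarith

end Pool.Agent.MP_56e4d4_pr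

end

section

/-!
The projective line: a distance, stretch factors, the counting lemma and commutativity of
point stabilisers in discrete groups.
-/

open Filter Topology Matrix
open scoped MatrixGroups LinearAlgebra.Projectivization

namespace Pool.Agent.MP_56e4d4_pr

/-- The real projective line. -/
abbrev P1 := ℙ ℝ (Fin 2 → ℝ)

/-- A normalised representative. -/
noncomputable def uv (p : P1) : Fin 2 → ℝ := (n1 p.rep)⁻¹ • p.rep

lemma n1_uv (p : P1) : n1 (uv p) = 1 := by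
  have := n1_pos p.rep_nonzero
  rw [uv, n1_smul, abs_of_pos (inv_pos.mpr this), inv_mul_cancel₀ this.ne']

lemma uv_ne (p : P1) : uv p ≠ 0 := by
  intro h
  have := n1_uv p
  rw [h] at this
  simp [n1] at this

lemma mk_uv (p : P1) : Projectivization.mk ℝ (uv p) (uv_ne p) = p := by
  conv_rhs => rw [← p.mk_rep]
  rw [Projectivization.mk_eq_mk_iff']
  exact ⟨_, rfl⟩

lemma exists_smul_uv (v : Fin 2 → ℝ) (hv : v ≠ 0) :
    ∃ c : ℝ, v = c • uv (Projectivization.mk ℝ v hv) ∧ |c| = n1 v := by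
  obtain ⟨c, hc⟩ := (Projectivization.mk_eq_mk_iff' ℝ _ _ hv (uv_ne _)).mp (mk_uv _).symm
  refine ⟨c, hc.symm, ?_⟩
  have := congrArg n1 hc
  rwa [n1_smul, n1_uv, mul_one] at this

lemma mulVec_ne (g : SL(2, ℝ)) {v : Fin 2 → ℝ} (hv : v ≠ 0) : g.1 *ᵥ v ≠ 0 :=
  (smul_ne_zero_iff_ne g).mpr hv

lemma smul_eq_mk (g : SL(2, ℝ)) (p : P1) :
    (g : PSL(2, ℝ)) • p = Projectivization.mk ℝ (g.1 *ᵥ uv p) (mulVec_ne g (uv_ne p)) := by
  conv_lhs => rw [← mk_uv p]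
  rfl

lemma exists_mulVec_uv (g : SL(2, ℝ)) (p : P1) :
    ∃ c : ℝ, g.1 *ᵥ uv p = c • uv ((g : PSL(2, ℝ)) • p) ∧ |c| = n1 (g.1 *ᵥ uv p) := by
  rw [smul_eq_mk]
  exact exists_smul_uv _ _

/-- A distance on the projective line. -/
noncomputable def dd (p q : P1) : ℝ := |dt (uv p) (uv q)|

lemma dd_nonneg (p q : P1) : 0 ≤ dd p q := abs_nonneg _

lemma dd_symm (p q : P1) : dd p q = dd q p := by
  unfold dd
  rw [← abs_neg]
  congr 1
  unfold dt
  ring

lemma dd_tri (p q r : P1) : dd p r ≤ dd p q + dd q r := by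
  have := dt_ineq 1 (uv p) (uv r) (uv q)
  simp only [Matrix.one_mulVec, n1_uv, mul_one] at this
  unfold dd
  linarith

lemma dd_pos (p q : P1) (h : p ≠ q) : 0 < dd p q := by
  refine abs_pos.mpr fun e => h ?_
  rw [← mk_uv p, ← mk_uv q, Projectivization.mk_eq_mk_iff']
  have hq := uv_ne q
  unfold dt at e
  by_cases h0 : uv q 0 = 0
  · have h1 : uv q 1 ≠ 0 := by
      intro h1
      apply hq
      ext i
      fin_cases i
      · exact h0
      · exact h1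
    refine ⟨uv p 1 / uv q 1, ?_⟩
    ext i
    fin_cases i
    · have : uv p 0 * uv q 1 = 0 := by rw [h0] at e; linarith
      simp [h0, (mul_eq_zero.mp this).resolve_right h1]
    · simp [h1]
  · refine ⟨uv p 0 / uv q 0, ?_⟩
    ext i
    fin_cases i
    · simp [h0]
    · simp only [Fin.mk_one, Pi.smul_apply, smul_eq_mul]
      field_simp
      linarith

lemma dd_mk (v w : Fin 2 → ℝ) (hv : v ≠ 0) (hw : w ≠ 0) :
    dd (Projectivization.mk ℝ v hv) (Projectivization.mk ℝ w hw) * (n1 v * n1 w) = |dt v w| := by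
  obtain ⟨a, ha, ha'⟩ := exists_smul_uv v hv
  obtain ⟨b, hb, hb'⟩ := exists_smul_uv w hw
  conv_rhs => rw [ha, hb, dt_smul_smul, abs_mul, abs_mul, ha', hb']
  unfold dd
  ring

lemma dd_cpt (U : Ultrafilter ℕ) (u : ℕ → P1) :
    ∃ p, Tendsto (fun j => dd (u j) p) U (𝓝 0) := by
  have h1 : IsCompact (Set.univ.pi fun _ : Fin 2 => Set.Icc (-1 : ℝ) 1) :=
    isCompact_univ_pi fun _ => isCompact_Icc
  obtain ⟨v, -, hv⟩ := h1.ultrafilter_le_nhds (U.map fun j => uv (u j)) (by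
    rw [Ultrafilter.coe_map, le_principal_iff, Filter.mem_map]
    refine Eventually.of_forall fun j i _ => abs_le.mp ?_
    have := n1_uv (u j)
    unfold n1 at this
    have := abs_nonneg (uv (u j) 0); have := abs_nonneg (uv (u j) 1)
    fin_cases i <;> simp <;> linarith)
  have hv' : Tendsto (fun j => uv (u j)) U (𝓝 v) := hv
  have hn : n1 v = 1 := by
    have hc : Continuous n1 := by unfold n1; fun_prop
    have := (hc.tendsto v).comp hv'
    simp only [Function.comp_def, n1_uv] at this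
    exact tendsto_nhds_unique this tendsto_const_nhds
  have hv0 : v ≠ 0 := by
    rintro rfl
    simp [n1] at hn
  refine ⟨Projectivization.mk ℝ v hv0, ?_⟩
  have hc : Continuous fun w => |dt w v| := by unfold dt; fun_prop
  have := (hc.tendsto v).comp hv'
  have e : |dt v v| = 0 := by simp [dt, mul_comm]
  rw [e] at this
  refine this.congr fun j => ?_
  have := dd_mk (uv (u j)) v (uv_ne _) hv0
  rw [mk_uv, n1_uv, hn, mul_one, mul_one] at this
  exact this.symm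

lemma one_le_mul_n1 (g : SL(2, ℝ)) (p : P1) : 1 ≤ Nm g.1 * n1 (g.1 *ᵥ uv p) := by
  have := n1_mulVec (g⁻¹ : SL(2, ℝ)).1 (g.1 *ᵥ uv p)
  rwa [Matrix.mulVec_mulVec, ← Matrix.SpecialLinearGroup.coe_mul, inv_mul_cancel,
    Matrix.SpecialLinearGroup.coe_one, Matrix.one_mulVec, n1_uv, Nm_inv] at this

lemma dd_smul_le (g g' : SL(2, ℝ)) (p q : P1) :
    dd ((g : PSL(2, ℝ)) • p) ((g' : PSL(2, ℝ)) • q) ≤
      Nm g.1 * Nm g'.1 * |dt (g.1 *ᵥ uv p) (g'.1 *ᵥ uv q)| := by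
  rw [← dd_mk _ _ (mulVec_ne g (uv_ne p)) (mulVec_ne g' (uv_ne q)), ← smul_eq_mk, ← smul_eq_mk]
  have h1 := one_le_mul_n1 g p
  have h2 := one_le_mul_n1 g' q
  have h3 := dd_nonneg ((g : PSL(2, ℝ)) • p) ((g' : PSL(2, ℝ)) • q)
  have h4 : 1 ≤ (Nm g.1 * n1 (g.1 *ᵥ uv p)) * (Nm g'.1 * n1 (g'.1 *ᵥ uv q)) :=
    one_le_mul_of_one_le_of_one_le h1 h2
  nlinarith

lemma dd_smul_smul (g : SL(2, ℝ)) (p q : P1) :
    dd ((g : PSL(2, ℝ)) • p) ((g : PSL(2, ℝ)) • q) ≤ Nm g.1 * Nm g.1 * dd p q := by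
  have := dd_smul_le g g p q
  rwa [dt_mulVec] at this

lemma dd_smul_near (g g' : SL(2, ℝ)) (p : P1) :
    dd ((g : PSL(2, ℝ)) • p) ((g' : PSL(2, ℝ)) • p) ≤
      Nm g.1 * Nm g'.1 * (Nm (g.1 - g'.1) * Nm g'.1) := by
  refine (dd_smul_le g g' p p).trans (mul_le_mul_of_nonneg_left ?_
    (mul_nonneg (Nm_nonneg _) (Nm_nonneg _)))
  have e : dt (g.1 *ᵥ uv p) (g'.1 *ᵥ uv p) = dt ((g.1 - g'.1) *ᵥ uv p) (g'.1 *ᵥ uv p) := by
    rw [Matrix.sub_mulVec]
    simp only [dt, Pi.sub_apply]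
    ring
  rw [e]
  refine (abs_dt_le _ _).trans (mul_le_mul ?_ ?_ (n1_nonneg _) (Nm_nonneg _))
  · simpa [n1_uv] using n1_mulVec (g.1 - g'.1) (uv p)
  · simpa [n1_uv] using n1_mulVec g'.1 (uv p)

lemma smul_cont {x : ℕ → PSL(2, ℝ)} {s : PSL(2, ℝ)} (h : Tendsto x atTop (𝓝 s)) (p : P1)
    (ρ : ℝ) (hρ : 0 < ρ) :
    ∃ ρ' > 0, ∀ᶠ j in atTop, ∀ q, dd (x j • q) p < ρ' → dd q (s⁻¹ • p) < ρ := by
  induction s using QuotientGroup.induction_on with | H g =>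
  obtain ⟨k, hk, hkg⟩ := exists_lift h
  have hinv : Tendsto (fun j => (k j)⁻¹) atTop (𝓝 g⁻¹) := hkg.inv
  have hN : Tendsto (fun j => Nm ((k j)⁻¹ : SL(2, ℝ)).1) atTop (𝓝 (Nm (g⁻¹ : SL(2, ℝ)).1)) :=
    ((continuous_Nm.comp continuous_subtype_val).tendsto _).comp hinv
  set c := Nm (g⁻¹ : SL(2, ℝ)).1 with hc
  have hc1 : 1 ≤ c := one_le_Nm _
  have h2 : Tendsto (fun j => Nm ((k j)⁻¹ : SL(2, ℝ)).1 * c *
      (Nm (((k j)⁻¹ : SL(2, ℝ)).1 - (g⁻¹ : SL(2, ℝ)).1) * c)) atTop (𝓝 (c * c * (0 * c))) :=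
    (hN.mul_const c).mul ((tendsto_SL_iff.mp hinv).mul_const c)
  rw [zero_mul, mul_zero] at h2
  refine ⟨ρ / 2 / ((c + 1) * (c + 1)), by positivity, ?_⟩
  filter_upwards [h2.eventually (gt_mem_nhds (half_pos hρ)),
    hN.eventually (gt_mem_nhds (lt_add_one c))] with j hj1 hj2 q hq
  have t1 := dd_tri q ((((k j)⁻¹ : SL(2, ℝ)) : PSL(2, ℝ)) • p) ((g : PSL(2, ℝ))⁻¹ • p)
  have t2 := dd_smul_near (k j)⁻¹ g⁻¹ p
  have t3 := dd_smul_smul (k j)⁻¹ (x j • q) p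
  rw [QuotientGroup.mk_inv, hk, inv_smul_smul] at t3
  rw [QuotientGroup.mk_inv, hk] at t1
  rw [QuotientGroup.mk_inv, QuotientGroup.mk_inv, hk] at t2
  have t4 : Nm ((k j)⁻¹ : SL(2, ℝ)).1 * Nm ((k j)⁻¹ : SL(2, ℝ)).1 * dd (x j • q) p ≤
      (c + 1) * (c + 1) * (ρ / 2 / ((c + 1) * (c + 1))) := by
    have := Nm_nonneg ((k j)⁻¹ : SL(2, ℝ)).1
    have := dd_nonneg (x j • q) p
    gcongr
  rw [mul_div_cancel₀ _ (by positivity)] at t4
  linarith

/-- The stretch factor of `x` in the direction `p`. -/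
noncomputable def str (x : PSL(2, ℝ)) (p : P1) : ℝ := n1 ((x.out : SL(2, ℝ)).1 *ᵥ uv p)

lemma bad_close {x : PSL(2, ℝ)} {p q : P1} {θ : ℝ} (hp : str x p < θ * NN x)
    (hq : str x q < θ * NN x) : dd p q < 2 * θ := by
  set A := (x.out : SL(2, ℝ)).1 with hA
  have h0 := dt_ineq A (uv p) (uv q) ![1, 0]
  have h1 := dt_ineq A (uv p) (uv q) ![0, 1]
  have hp1 := n1_uv p
  have hq1 := n1_uv q
  have e1 : |dt ![1, 0] (uv q)| + |dt ![0, 1] (uv q)| = 1 := by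
    unfold n1 at hq1; simp [dt]; linarith
  have e2 : |dt (uv p) ![1, 0]| + |dt (uv p) ![0, 1]| = 1 := by
    unfold n1 at hp1; simp [dt]; linarith
  have h2 : dd p q * NN x ≤ str x p + str x q := by
    unfold dd NN str
    rw [← hA, Nm_eq_cols]
    calc _ ≤ (|dt ![1, 0] (uv q)| + |dt ![0, 1] (uv q)|) * n1 (A *ᵥ uv p) +
          (|dt (uv p) ![1, 0]| + |dt (uv p) ![0, 1]|) * n1 (A *ᵥ uv q) := by linarith
      _ = _ := by rw [e1, e2, one_mul, one_mul]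
  have h3 := one_le_NN x
  by_contra hcon
  push Not at hcon
  nlinarith

lemma entry_bound (g g' : SL(2, ℝ)) (v v' η : Fin 2 → ℝ) (c c' : ℝ) (hv : n1 v = 1)
    (hv' : n1 v' = 1) (hη : n1 η = 1) (h : g.1 *ᵥ v = c • η) (h' : g'.1 *ᵥ v' = c' • η)
    (w t : Fin 2 → ℝ) (hw : n1 w = 1) (ht : n1 t = 1) :
    |dt (g'.1 *ᵥ w) (g.1 *ᵥ t)| * (|c| * |c'|) ≤ |c'| * Nm g'.1 + |c| * Nm g.1 := by
  have h1 := dt_ineq 1 (g'.1 *ᵥ w) (g.1 *ᵥ t) η
  simp only [Matrix.one_mulVec, hη, mul_one] at h1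
  have h2 : |c| * |dt η (g.1 *ᵥ t)| ≤ 1 := by
    have e := dt_mulVec g v t
    rw [h, ← one_smul ℝ (g.1 *ᵥ t), dt_smul_smul, mul_one] at e
    rw [← abs_mul, e]
    simpa [hv, ht] using abs_dt_le v t
  have h3 : |c'| * |dt (g'.1 *ᵥ w) η| ≤ 1 := by
    have e := dt_mulVec g' w v'
    rw [h', ← one_smul ℝ (g'.1 *ᵥ w), dt_smul_smul, one_mul] at e
    rw [← abs_mul, e]
    simpa [hv', hw] using abs_dt_le w v'
  have h4 : n1 (g'.1 *ᵥ w) ≤ Nm g'.1 := by simpa [hw] using n1_mulVec g'.1 w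
  have h5 : n1 (g.1 *ᵥ t) ≤ Nm g.1 := by simpa [ht] using n1_mulVec g.1 t
  have := n1_nonneg (g'.1 *ᵥ w)
  have := n1_nonneg (g.1 *ᵥ t)
  calc _ ≤ (|dt η (g.1 *ᵥ t)| * n1 (g'.1 *ᵥ w) + |dt (g'.1 *ᵥ w) η| * n1 (g.1 *ᵥ t)) *
        (|c| * |c'|) := by gcongr
    _ = |c'| * ((|c| * |dt η (g.1 *ᵥ t)|) * n1 (g'.1 *ᵥ w)) +
        |c| * ((|c'| * |dt (g'.1 *ᵥ w) η|) * n1 (g.1 *ᵥ t)) := by ring
    _ ≤ |c'| * (1 * Nm g'.1) + |c| * (1 * Nm g.1) := by gcongr
    _ = _ := by ring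

lemma good_count {x x' : PSL(2, ℝ)} {p p' : P1} {θ : ℝ} (hθ : 0 < θ)
    (hp : θ * NN x ≤ str x p) (hp' : θ * NN x' ≤ str x' p') (e : x • p = x' • p')
    (h1 : NN x ≤ 2 * NN x') (h2 : NN x' ≤ 2 * NN x) : NN (x⁻¹ * x') ≤ 16 / θ := by
  set g : SL(2, ℝ) := x.out with hg
  set g' : SL(2, ℝ) := x'.out with hg'
  have hx : (g : PSL(2, ℝ)) = x := QuotientGroup.out_eq' x
  have hx' : (g' : PSL(2, ℝ)) = x' := QuotientGroup.out_eq' x'
  obtain ⟨c, hc, hc1⟩ := exists_mulVec_uv g p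
  obtain ⟨c', hc', hc1'⟩ := exists_mulVec_uv g' p'
  rw [hx] at hc
  rw [hx', ← e] at hc'
  have hN := one_le_NN x
  have hN' := one_le_NN x'
  have b1 : θ * NN x ≤ |c| := by rw [hc1]; exact hp
  have b2 : θ * NN x' ≤ |c'| := by rw [hc1']; exact hp'
  have c0 : 0 < |c| := lt_of_lt_of_le (by positivity) b1
  have c0' : 0 < |c'| := lt_of_lt_of_le (by positivity) b2
  have key : ∀ w t : Fin 2 → ℝ, n1 w = 1 → n1 t = 1 →
      |dt ((g⁻¹ * g' : SL(2, ℝ)).1 *ᵥ w) t| ≤ 4 / θ := by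
    intro w t hw ht
    have h3 := entry_bound g g' (uv p) (uv p') _ c c' (n1_uv _) (n1_uv _) (n1_uv _) hc hc' w t
      hw ht
    have h4 : dt ((g⁻¹ * g' : SL(2, ℝ)).1 *ᵥ w) t = dt (g'.1 *ᵥ w) (g.1 *ᵥ t) := by
      rw [← dt_mulVec g, Matrix.mulVec_mulVec, ← Matrix.SpecialLinearGroup.coe_mul,
        mul_inv_cancel_left]
    rw [h4, le_div_iff₀ hθ]
    change _ ≤ |c'| * NN x' + |c| * NN x at h3
    have h5 : θ * (|c'| * NN x' + |c| * NN x) ≤ 4 * (|c| * |c'|) := by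
      nlinarith [mul_le_mul_of_nonneg_left b1 c0'.le, mul_le_mul_of_nonneg_left b2 c0.le,
        mul_le_mul_of_nonneg_left h1 (mul_pos hθ c0).le,
        mul_le_mul_of_nonneg_left h2 (mul_pos hθ c0').le]
    have h6 := mul_le_mul_of_nonneg_left h3 hθ.le
    have h7 := mul_pos c0 c0'
    by_contra hcon
    push Not at hcon
    nlinarith
  rw [← hx, ← hx', ← QuotientGroup.mk_inv, ← QuotientGroup.mk_mul, NN_mk]
  have k1 := key ![1, 0] ![1, 0] (by simp [n1]) (by simp [n1])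
  have k2 := key ![1, 0] ![0, 1] (by simp [n1]) (by simp [n1])
  have k3 := key ![0, 1] ![1, 0] (by simp [n1]) (by simp [n1])
  have k4 := key ![0, 1] ![0, 1] (by simp [n1]) (by simp [n1])
  simp only [dt, mulVec_zero', mulVec_one', Matrix.cons_val_zero, Matrix.cons_val_one,
    mul_one, mul_zero, add_zero, zero_add, sub_zero, zero_sub, abs_neg] at k1 k2 k3 k4
  unfold Nm
  have : 16 / θ = 4 * (4 / θ) := by ring
  linarith

/-- The nilpotent matrix attached to a vector. -/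
def nil (v : Fin 2 → ℝ) : Matrix (Fin 2) (Fin 2) ℝ :=
  !![-(v 0 * v 1), v 0 * v 0; -(v 1 * v 1), v 0 * v 1]

lemma eq_of_fix (g : SL(2, ℝ)) {v : Fin 2 → ℝ} (hv : v ≠ 0) (h : g.1 *ᵥ v = v) :
    ∃ τ : ℝ, g.1 = 1 + τ • nil v := by
  have h0 := congrFun h 0
  have h1 := congrFun h 1
  rw [mulVec_zero'] at h0
  rw [mulVec_one'] at h1
  have hd := det_eq g
  have hpos : 0 < v 0 * v 0 + v 1 * v 1 := by
    by_contra hc
    apply hv
    have a0 : v 0 = 0 := by nlinarith [mul_self_nonneg (v 0), mul_self_nonneg (v 1)]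
    have a1 : v 1 = 0 := by nlinarith [mul_self_nonneg (v 0), mul_self_nonneg (v 1)]
    ext i
    fin_cases i
    · exact a0
    · exact a1
  have htr : g.1 0 0 + g.1 1 1 = 2 := by
    have t0 : (g.1 0 0 + g.1 1 1 - 2) * v 0 = 0 := by
      linear_combination (1 - g.1 1 1) * h0 + g.1 0 1 * h1 + v 0 * hd
    have t1 : (g.1 0 0 + g.1 1 1 - 2) * v 1 = 0 := by
      linear_combination (1 - g.1 0 0) * h1 + g.1 1 0 * h0 + v 1 * hd
    have : (g.1 0 0 + g.1 1 1 - 2) * (v 0 * v 0 + v 1 * v 1) = 0 := by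
      linear_combination v 0 * t0 + v 1 * t1
    have := (mul_eq_zero.mp this).resolve_right hpos.ne'
    linarith
  obtain ⟨τ, hτ⟩ : ∃ τ : ℝ, τ * (v 0 * v 0 + v 1 * v 1) = g.1 0 1 - g.1 1 0 :=
    ⟨_, div_mul_cancel₀ _ hpos.ne'⟩
  refine ⟨τ, ?_⟩
  ext i j
  refine mul_right_cancel₀ hpos.ne' ?_
  fin_cases i <;> fin_cases j <;> simp [nil, -mul_eq_mul_right_iff]
  · linear_combination v 0 * h0 - v 1 * h1 + v 1 * v 1 * htr + v 0 * v 1 * hτ
  · linear_combination v 1 * h0 + v 0 * h1 - v 0 * v 1 * htr - v 0 * v 0 * hτ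
  · linear_combination v 1 * h0 + v 0 * h1 - v 0 * v 1 * htr + v 1 * v 1 * hτ
  · linear_combination - v 0 * h0 + v 1 * h1 + v 0 * v 0 * htr - v 0 * v 1 * hτ

lemma conj_nil (g : SL(2, ℝ)) {v : Fin 2 → ℝ} {a : ℝ} (h : g.1 *ᵥ v = a • v) :
    g.1 * nil v = (a ^ 2 • nil v) * g.1 := by
  have h0 := congrFun h 0
  have h1 := congrFun h 1
  rw [mulVec_zero'] at h0
  rw [mulVec_one'] at h1
  simp only [Pi.smul_apply, smul_eq_mul] at h0 h1
  have hd := det_eq g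
  have k0 : g.1 1 1 * v 0 * a - g.1 0 1 * v 1 * a = v 0 := by
    linear_combination (-g.1 1 1) * h0 + g.1 0 1 * h1 + v 0 * hd
  have k1 : g.1 0 0 * v 1 * a - g.1 1 0 * v 0 * a = v 1 := by
    linear_combination (-g.1 0 0) * h1 + g.1 1 0 * h0 + v 1 * hd
  ext i j
  fin_cases i <;> fin_cases j <;> simp [nil, Matrix.mul_apply, Fin.sum_univ_two]
  · linear_combination (-v 1) * h0 + a * v 0 * k1
  · linear_combination v 0 * h0 - a * v 0 * k0
  · linear_combination (-v 1) * h1 + a * v 1 * k1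
  · linear_combination v 0 * h1 - a * v 1 * k0

lemma nil_zero_of_contract (Γ : Subgroup PSL(2, ℝ)) [DiscreteTopology Γ] (g c : SL(2, ℝ))
    (hg : (g : PSL(2, ℝ)) ∈ Γ) (hc : (c : PSL(2, ℝ)) ∈ Γ) {v : Fin 2 → ℝ} {a τ : ℝ}
    (h : g.1 *ᵥ v = a • v) (ha : a ^ 2 < 1) (hτ : c.1 = 1 + τ • nil v) :
    c = 1 := by
  obtain ⟨δ, hδ, -, hgap⟩ := discrete_gap Γ
  have key : ∀ k : ℕ, (g ^ k * c * (g ^ k)⁻¹).1 = 1 + ((a ^ 2) ^ k * τ) • nil v := by
    intro k
    induction k with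
    | zero => simpa using hτ
    | succ k ih =>
      have e : g ^ (k + 1) * c * (g ^ (k + 1))⁻¹ = g * (g ^ k * c * (g ^ k)⁻¹) * g⁻¹ := by group
      have e1 : g.1 * (g⁻¹ : SL(2, ℝ)).1 = 1 := by
        rw [← Matrix.SpecialLinearGroup.coe_mul, mul_inv_cancel, Matrix.SpecialLinearGroup.coe_one]
      rw [e, Matrix.SpecialLinearGroup.coe_mul, Matrix.SpecialLinearGroup.coe_mul, ih, mul_add,
        mul_one, Matrix.mul_smul, conj_nil g h, add_mul, e1, Matrix.smul_mul, mul_assoc, e1,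
        mul_one, smul_smul]
      congr 2
      ring
  have ht : Tendsto (fun k : ℕ => (a ^ 2) ^ k * (|τ| * Nm (nil v))) atTop
      (𝓝 (0 * (|τ| * Nm (nil v)))) :=
    (tendsto_pow_atTop_nhds_zero_of_lt_one (sq_nonneg a) ha).mul_const _
  rw [zero_mul] at ht
  obtain ⟨k, hk⟩ := (ht.eventually (ge_mem_nhds hδ)).exists
  have h1 := hgap (g ^ k * c * (g ^ k)⁻¹) (by
    rw [QuotientGroup.mk_mul, QuotientGroup.mk_mul, QuotientGroup.mk_inv, QuotientGroup.mk_pow]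
    exact Γ.mul_mem (Γ.mul_mem (Γ.pow_mem hg k) hc) (Γ.inv_mem (Γ.pow_mem hg k))) (by
    rw [key, add_sub_cancel_left, Nm_smul, abs_mul, abs_of_nonneg (by positivity), mul_assoc]
    exact hk)
  have : c = (g ^ k)⁻¹ * (g ^ k * c * (g ^ k)⁻¹) * g ^ k := by group
  rw [this, h1]
  simp

lemma inv_mulVec (g : SL(2, ℝ)) {v : Fin 2 → ℝ} {a : ℝ} (h : g.1 *ᵥ v = a • v) (ha : a ≠ 0) :
    (g⁻¹ : SL(2, ℝ)).1 *ᵥ v = a⁻¹ • v := by
  have := congrArg (fun w => (g⁻¹ : SL(2, ℝ)).1 *ᵥ w) h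
  simp only [Matrix.mulVec_mulVec, ← Matrix.SpecialLinearGroup.coe_mul, inv_mul_cancel,
    Matrix.SpecialLinearGroup.coe_one, Matrix.one_mulVec, Matrix.mulVec_smul] at this
  conv_rhs => rw [this, smul_smul, inv_mul_cancel₀ ha, one_smul]

lemma nil_zero_of_ne (Γ : Subgroup PSL(2, ℝ)) [DiscreteTopology Γ] (g c : SL(2, ℝ))
    (hg : (g : PSL(2, ℝ)) ∈ Γ) (hc : (c : PSL(2, ℝ)) ∈ Γ) {v : Fin 2 → ℝ} {a τ : ℝ}
    (h : g.1 *ᵥ v = a • v) (ha0 : a ≠ 0) (ha : a ^ 2 ≠ 1) (hτ : c.1 = 1 + τ • nil v) :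
    c = 1 := by
  rcases lt_or_gt_of_ne ha with h1 | h1
  · exact nil_zero_of_contract Γ g c hg hc h h1 hτ
  · refine nil_zero_of_contract Γ g⁻¹ c (by rw [QuotientGroup.mk_inv]; exact Γ.inv_mem hg) hc
      (inv_mulVec g h ha0) ?_ hτ
    rw [inv_pow]
    exact inv_lt_one_of_one_lt₀ h1

lemma exists_unip (g : SL(2, ℝ)) {v : Fin 2 → ℝ} (hv : v ≠ 0) {a : ℝ} (h : g.1 *ᵥ v = a • v)
    (ha : a ^ 2 = 1) : ∃ s τ : ℝ, g.1 = s • 1 + τ • nil v := by
  have : (a - 1) * (a + 1) = 0 := by linear_combination ha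
  rcases mul_eq_zero.mp this with h2 | h2
  · have : a = 1 := by linarith
    rw [this, one_smul] at h
    obtain ⟨τ, hτ⟩ := eq_of_fix g hv h
    exact ⟨1, τ, by simpa using hτ⟩
  · have : a = -1 := by linarith
    obtain ⟨τ, hτ⟩ := eq_of_fix (-g) hv (by
      rw [Matrix.SpecialLinearGroup.coe_neg, Matrix.neg_mulVec, h, this]; simp)
    rw [Matrix.SpecialLinearGroup.coe_neg] at hτ
    refine ⟨-1, -τ, ?_⟩
    rw [← neg_neg g.1, hτ]
    simp [add_comm]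

theorem stab_comm (Γ : Subgroup PSL(2, ℝ)) [DiscreteTopology Γ] (p : P1) :
    ∀ x ∈ Γ, ∀ y ∈ Γ, x • p = p → y • p = p → x * y = y * x := by
  intro x hx y hy hxp hyp
  induction x using QuotientGroup.induction_on with | H g =>
  induction y using QuotientGroup.induction_on with | H h =>
  obtain ⟨a, ha, ha1⟩ := exists_mulVec_uv g p
  obtain ⟨b, hb, hb1⟩ := exists_mulVec_uv h p
  rw [hxp] at ha
  rw [hyp] at hb
  have ha0 : a ≠ 0 := abs_pos.mp (ha1 ▸ n1_pos (mulVec_ne g (uv_ne p)))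
  have hb0 : b ≠ 0 := abs_pos.mp (hb1 ▸ n1_pos (mulVec_ne h (uv_ne p)))
  suffices H : g * h = h * g by rw [← QuotientGroup.mk_mul, ← QuotientGroup.mk_mul, H]
  have hfix : (g * h * g⁻¹ * h⁻¹ : SL(2, ℝ)).1 *ᵥ uv p = uv p := by
    simp only [Matrix.SpecialLinearGroup.coe_mul, ← Matrix.mulVec_mulVec, inv_mulVec h hb hb0,
      inv_mulVec g ha ha0, Matrix.mulVec_smul, ha, hb, smul_smul]
    have : b⁻¹ * (a⁻¹ * (b * a)) = 1 := by field_simp
    rw [this, one_smul]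
  obtain ⟨τ, hτ⟩ := eq_of_fix _ (uv_ne p) hfix
  have hcmem : ((g * h * g⁻¹ * h⁻¹ : SL(2, ℝ)) : PSL(2, ℝ)) ∈ Γ := by
    simp only [QuotientGroup.mk_mul, QuotientGroup.mk_inv]
    exact Γ.mul_mem (Γ.mul_mem (Γ.mul_mem hx hy) (Γ.inv_mem hx)) (Γ.inv_mem hy)
  have hfin : g * h * g⁻¹ * h⁻¹ = 1 → g * h = h * g := by
    intro e
    have : g * h = (g * h * g⁻¹ * h⁻¹) * (h * g) := by group
    rw [this, e, one_mul]
  by_cases h1 : a ^ 2 = 1
  · by_cases h2 : b ^ 2 = 1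
    · obtain ⟨s, σ, hs⟩ := exists_unip g (uv_ne p) ha h1
      obtain ⟨s', σ', hs'⟩ := exists_unip h (uv_ne p) hb h2
      apply Subtype.ext
      rw [Matrix.SpecialLinearGroup.coe_mul, Matrix.SpecialLinearGroup.coe_mul, hs, hs']
      simp only [add_mul, mul_add, Matrix.smul_mul, Matrix.mul_smul, one_mul, mul_one,
        smul_smul]
      module
    · exact hfin (nil_zero_of_ne Γ h _ hy hcmem hb hb0 h2 hτ)
  · exact hfin (nil_zero_of_ne Γ g _ hx hcmem ha ha0 h1 hτ)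

end Pool.Agent.MP_56e4d4_pr

end

section

/-!
Convergence of convolution powers along asymptotic homomorphisms, and upper semicontinuity.
-/

open Filter Topology Finset

namespace Pool.Agent.MP_56e4d4_pr

variable {G : Type*} [Group G]

/-- Asymptotic injective homomorphisms. -/
structure Asym (Γ : Subgroup G) (ψ : ℕ → G → G) : Prop where
  mul : ∀ y ∈ Γ, ∀ y' ∈ Γ, ∀ᶠ n in atTop, ψ n (y * y') = ψ n y * ψ n y'
  inj : ∀ T : Finset G, (∀ y ∈ T, y ∈ Γ) → ∀ᶠ n in atTop, Set.InjOn (ψ n) T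

/-- Convergence of weights. -/
def Conv (Γ : Subgroup G) (ψ : ℕ → G → G) (fs : ℕ → MonoidAlgebra ℝ G) (f : MonoidAlgebra ℝ G) :
    Prop :=
  ∀ y ∈ Γ, Tendsto (fun n => (fs n).coeff (ψ n y)) atTop (𝓝 (f.coeff y))

variable {Γ : Subgroup G} {ψ : ℕ → G → G}

lemma Asym.sum_le_one (hψ : Asym Γ ψ) {fs : ℕ → MonoidAlgebra ℝ G} (hfs : ∀ n, IsProb (fs n))
    (T : Finset G) (hT : ∀ y ∈ T, y ∈ Γ) :
    ∀ᶠ n in atTop, ∑ y ∈ T, (fs n).coeff (ψ n y) ≤ 1 := by
  classical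
  filter_upwards [hψ.inj T hT] with n hn
  rw [← Finset.sum_image (f := fun x => (fs n).coeff x) hn]
  exact (hfs n).sum_le_one _

lemma conv_of_lower (hψ : Asym Γ ψ) {fs : ℕ → MonoidAlgebra ℝ G} {f : MonoidAlgebra ℝ G}
    (hfs : ∀ n, IsProb (fs n)) (hf : IsProb f) (hΓ : ∀ y ∈ f.coeff.support, y ∈ Γ)
    (g : ℕ → G → ℝ) (hg : ∀ y ∈ f.coeff.support, Tendsto (fun n => g n y) atTop (𝓝 (f.coeff y)))
    (hle : ∀ y ∈ f.coeff.support, ∀ᶠ n in atTop, g n y ≤ (fs n).coeff (ψ n y)) :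
    Conv Γ ψ fs f := by
  classical
  intro y hy
  set T := f.coeff.support.erase y with hT
  have hup : Tendsto (fun n => 1 - ∑ z ∈ T, g n z) atTop (𝓝 (f.coeff y)) := by
    have h1 : f.coeff y = 1 - ∑ z ∈ T, f.coeff z := by
      have := hf.sum_eq_one (T := insert y T) (by rw [hT]; exact Finset.subset_insert_iff.mpr le_rfl)
      rw [Finset.sum_insert (Finset.notMem_erase _ _)] at this
      linarith
    rw [h1]
    exact tendsto_const_nhds.sub
      (tendsto_finsetSum _ fun z hz => hg z (Finset.mem_of_mem_erase hz))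
  have hup' : ∀ᶠ n in atTop, (fs n).coeff (ψ n y) ≤ 1 - ∑ z ∈ T, g n z := by
    have h2 : ∀ᶠ n in atTop, ∀ z ∈ T, g n z ≤ (fs n).coeff (ψ n z) :=
      (eventually_all_finset T).mpr fun z hz => hle z (Finset.mem_of_mem_erase hz)
    filter_upwards [h2, hψ.sum_le_one hfs (insert y T) (by
      intro z hz
      rcases Finset.mem_insert.mp hz with rfl | hz
      · exact hy
      · exact hΓ z (Finset.mem_of_mem_erase hz))] with n h2 h3
    rw [Finset.sum_insert (Finset.notMem_erase _ _)] at h3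
    have := Finset.sum_le_sum h2
    linarith
  by_cases hmem : y ∈ f.coeff.support
  · exact tendsto_of_tendsto_of_tendsto_of_le_of_le' (hg y hmem) hup (hle y hmem) hup'
  · refine tendsto_of_tendsto_of_tendsto_of_le_of_le' (g := fun _ => 0) ?_ hup
      (Eventually.of_forall fun n => (hfs n).nonneg _) hup'
    rw [Finsupp.notMem_support_iff.mp hmem]
    exact tendsto_const_nhds

lemma support_mul_mem {f g : MonoidAlgebra ℝ G} (hf : ∀ y ∈ f.coeff.support, y ∈ Γ)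
    (hg : ∀ y ∈ g.coeff.support, y ∈ Γ) : ∀ y ∈ (f * g).coeff.support, y ∈ Γ := by
  intro y hy
  obtain ⟨a, ha, b, hb, rfl⟩ := mem_support_mul hy
  exact Γ.mul_mem (hf a ha) (hg b hb)

lemma mem_support_one {x : G} (hx : x ∈ (1 : MonoidAlgebra ℝ G).coeff.support) : x = 1 := by
  rw [MonoidAlgebra.one_def, MonoidAlgebra.coeff_single] at hx
  simpa using Finsupp.support_single_subset hx

lemma support_pow_mem {f : MonoidAlgebra ℝ G} (hf : ∀ y ∈ f.coeff.support, y ∈ Γ) (m : ℕ) :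
    ∀ y ∈ (f ^ m).coeff.support, y ∈ Γ := by
  induction m with
  | zero =>
    intro y hy
    rw [pow_zero] at hy
    rw [mem_support_one hy]
    exact Γ.one_mem
  | succ m ih => rw [pow_succ]; exact support_mul_mem ih hf

lemma card_support_pow_le {f : MonoidAlgebra ℝ G} {N : ℕ} (hN : f.coeff.support.card ≤ N)
    (m : ℕ) : (f ^ m).coeff.support.card ≤ N ^ m := by
  classical
  induction m with
  | zero =>
    rw [pow_zero, pow_zero, Finset.card_le_one]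
    intro a ha b hb
    rw [mem_support_one ha, mem_support_one hb]
  | succ m ih =>
    have : (f ^ (m + 1)).coeff.support ⊆
        ((f ^ m).coeff.support ×ˢ f.coeff.support).image fun p => p.1 * p.2 := by
      intro y hy
      rw [pow_succ] at hy
      obtain ⟨a, ha, b, hb, rfl⟩ := mem_support_mul hy
      exact Finset.mem_image.mpr ⟨(a, b), Finset.mem_product.mpr ⟨ha, hb⟩, rfl⟩
    refine (Finset.card_le_card this).trans (Finset.card_image_le.trans ?_)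
    rw [Finset.card_product, pow_succ]
    exact Nat.mul_le_mul ih hN

lemma Conv.mul (hψ : Asym Γ ψ) {fs gs : ℕ → MonoidAlgebra ℝ G} {f g : MonoidAlgebra ℝ G}
    (hfs : ∀ n, IsProb (fs n)) (hgs : ∀ n, IsProb (gs n)) (hf : IsProb f) (hg : IsProb g)
    (hfΓ : ∀ y ∈ f.coeff.support, y ∈ Γ) (hgΓ : ∀ y ∈ g.coeff.support, y ∈ Γ)
    (h1 : Conv Γ ψ fs f) (h2 : Conv Γ ψ gs g) : Conv Γ ψ (fun n => fs n * gs n) (f * g) := by
  classical
  refine conv_of_lower hψ (fun n => (hfs n).mul (hgs n)) (hf.mul hg) (support_mul_mem hfΓ hgΓ)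
    (fun n y => ∑ a ∈ f.coeff.support, (fs n).coeff (ψ n a) * (gs n).coeff (ψ n (a⁻¹ * y)))
    (fun y hy => ?_) (fun y hy => ?_)
  · rw [coeff_mul_eq]
    have hyΓ := support_mul_mem hfΓ hgΓ y hy
    exact tendsto_finsetSum _ fun a ha =>
      (h1 a (hfΓ a ha)).mul (h2 _ (Γ.mul_mem (Γ.inv_mem (hfΓ a ha)) hyΓ))
  · have hyΓ := support_mul_mem hfΓ hgΓ y hy
    have h3 : ∀ᶠ n in atTop, ∀ a ∈ f.coeff.support,
        ψ n (a * (a⁻¹ * y)) = ψ n a * ψ n (a⁻¹ * y) :=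
      (eventually_all_finset _).mpr fun a ha =>
        hψ.mul a (hfΓ a ha) _ (Γ.mul_mem (Γ.inv_mem (hfΓ a ha)) hyΓ)
    filter_upwards [h3, hψ.inj _ hfΓ] with n h3 h4
    rw [coeff_mul_eq, Ex_eq_sum (fs n) _ ((fs n).coeff.support ∪ f.coeff.support.image (ψ n))
      Finset.subset_union_left]
    refine le_trans (le_of_eq ?_) (Finset.sum_le_sum_of_subset_of_nonneg
      (s := f.coeff.support.image (ψ n)) Finset.subset_union_right
      fun x _ _ => mul_nonneg ((hfs n).nonneg _) ((hgs n).nonneg _))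
    rw [Finset.sum_image h4]
    refine Finset.sum_congr rfl fun a ha => ?_
    have := h3 a ha
    rw [mul_inv_cancel_left] at this
    rw [this, inv_mul_cancel_left]

lemma conv_one (hψ : Asym Γ ψ) : Conv Γ ψ (fun _ => 1) 1 := by
  refine conv_of_lower hψ (fun _ => isProb_one) isProb_one
    (fun y hy => mem_support_one hy ▸ Γ.one_mem) (fun _ y => (1 : MonoidAlgebra ℝ G).coeff y)
    (fun _ _ => tendsto_const_nhds) fun y hy => ?_
  filter_upwards [hψ.mul 1 Γ.one_mem 1 Γ.one_mem] with n hn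
  rw [mul_one] at hn
  have : ψ n 1 = 1 := by simpa using hn
  rw [mem_support_one hy, this]

lemma Conv.pow (hψ : Asym Γ ψ) {fs : ℕ → MonoidAlgebra ℝ G} {f : MonoidAlgebra ℝ G}
    (hfs : ∀ n, IsProb (fs n)) (hf : IsProb f) (hfΓ : ∀ y ∈ f.coeff.support, y ∈ Γ)
    (h1 : Conv Γ ψ fs f) (m : ℕ) : Conv Γ ψ (fun n => fs n ^ m) (f ^ m) := by
  induction m with
  | zero => simpa using conv_one hψ
  | succ m ih =>
    simp only [pow_succ]
    exact Conv.mul hψ (fun n => (hfs n).pow m) hfs (hf.pow m) hf (support_pow_mem hfΓ m) hfΓ ih h1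

lemma Conv.tendsto_ent {fs : ℕ → MonoidAlgebra ℝ G} {f : MonoidAlgebra ℝ G}
    (hfΓ : ∀ y ∈ f.coeff.support, y ∈ Γ) (h1 : Conv Γ ψ fs f) :
    Tendsto (fun n => ∑ y ∈ f.coeff.support, Real.negMulLog ((fs n).coeff (ψ n y))) atTop
      (𝓝 (Ent f)) :=
  tendsto_finsetSum _ fun y hy => (Real.continuous_negMulLog.tendsto _).comp (h1 y (hfΓ y hy))

lemma Conv.tendsto_mass {fs : ℕ → MonoidAlgebra ℝ G} {f : MonoidAlgebra ℝ G} (hf : IsProb f)
    (hfΓ : ∀ y ∈ f.coeff.support, y ∈ Γ) (h1 : Conv Γ ψ fs f) :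
    Tendsto (fun n => 1 - ∑ y ∈ f.coeff.support, (fs n).coeff (ψ n y)) atTop (𝓝 0) := by
  have := (tendsto_const_nhds (x := (1 : ℝ))).sub
    (tendsto_finsetSum f.coeff.support fun y hy => h1 y (hfΓ y hy))
  rwa [hf.total, sub_self] at this

lemma Conv.ent_le (hψ : Asym Γ ψ) {fs : ℕ → MonoidAlgebra ℝ G} {f : MonoidAlgebra ℝ G}
    (hfs : ∀ n, IsProb (fs n)) (hf : IsProb f) (hfΓ : ∀ y ∈ f.coeff.support, y ∈ Γ)
    (h1 : Conv Γ ψ fs f) {N : ℕ} (hN : ∀ n, (fs n).coeff.support.card ≤ N) {ε : ℝ}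
    (hε : 0 < ε) : ∀ᶠ n in atTop, Ent (fs n) < Ent f + ε := by
  classical
  have hε' : 0 < ε / 2 / (N + 1) := by positivity
  obtain ⟨r, hr, hr'⟩ : ∃ r > 0, ∀ t : ℝ, |t| < r → Real.negMulLog t ≤ ε / 2 / (N + 1) := by
    have := Real.continuous_negMulLog.tendsto 0
    rw [Real.negMulLog_zero] at this
    obtain ⟨r, hr, h⟩ := Metric.eventually_nhds_iff.mp (this.eventually (ge_mem_nhds hε'))
    exact ⟨r, hr, fun t ht => h (by simpa using ht)⟩
  filter_upwards [hψ.inj _ hfΓ,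
    (Conv.tendsto_ent hfΓ h1).eventually (gt_mem_nhds (lt_add_of_pos_right _ (half_pos hε))),
    (Conv.tendsto_mass hf hfΓ h1).eventually (gt_mem_nhds hr)] with n hinj h2 h3
  set T := f.coeff.support.image (ψ n) with hT
  rw [Ent_eq_sum (fs n) ((fs n).coeff.support ∪ T) Finset.subset_union_left,
    ← Finset.sum_sdiff (Finset.subset_union_right (s₁ := (fs n).coeff.support) (s₂ := T))]
  have e1 : ∑ x ∈ T, Real.negMulLog ((fs n).coeff x) =
      ∑ y ∈ f.coeff.support, Real.negMulLog ((fs n).coeff (ψ n y)) := by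
    rw [hT, Finset.sum_image hinj]
  have e2 : ∑ x ∈ T, (fs n).coeff x = ∑ y ∈ f.coeff.support, (fs n).coeff (ψ n y) := by
    rw [hT, Finset.sum_image hinj]
  have h4 : ∑ x ∈ ((fs n).coeff.support ∪ T) \ T, Real.negMulLog ((fs n).coeff x) ≤
      ∑ _x ∈ ((fs n).coeff.support ∪ T) \ T, ε / 2 / (N + 1) := by
    refine Finset.sum_le_sum fun x hx => hr' _ ?_
    rw [abs_of_nonneg ((hfs n).nonneg x)]
    have h5 := (hfs n).sum_le_one (insert x T)
    rw [Finset.sum_insert (Finset.mem_sdiff.mp hx).2] at h5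
    linarith
  rw [Finset.sum_const, nsmul_eq_mul] at h4
  have h6 : ((((fs n).coeff.support ∪ T) \ T).card : ℝ) ≤ N + 1 := by
    have : (((fs n).coeff.support ∪ T) \ T).card ≤ N := by
      refine le_trans (Finset.card_le_card ?_) (hN n)
      intro x hx
      rw [Finset.mem_sdiff, Finset.mem_union] at hx
      tauto
    have : ((((fs n).coeff.support ∪ T) \ T).card : ℝ) ≤ N := by exact_mod_cast this
    linarith
  have h7 : ((((fs n).coeff.support ∪ T) \ T).card : ℝ) * (ε / 2 / (N + 1)) ≤ ε / 2 := by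
    calc _ ≤ (N + 1) * (ε / 2 / (N + 1)) := by gcongr
      _ = ε / 2 := by field_simp
  linarith

/-- Upper semicontinuity. -/
theorem hh_upper (hψ : Asym Γ ψ) {fs : ℕ → MonoidAlgebra ℝ G} {f : MonoidAlgebra ℝ G}
    (hfs : ∀ n, IsProb (fs n)) (hf : IsProb f) (hfΓ : ∀ y ∈ f.coeff.support, y ∈ Γ)
    (h1 : Conv Γ ψ fs f) {N : ℕ} (hN : ∀ n, (fs n).coeff.support.card ≤ N) {c : ℝ}
    (hc : hh f < c) : ∀ᶠ n in atTop, hh (fs n) < c := by
  obtain ⟨m, hm, hm0⟩ :=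
    (((tendsto_hh hf).eventually (gt_mem_nhds hc)).and (eventually_gt_atTop 0)).exists
  have hm' : (0 : ℝ) < m := by exact_mod_cast hm0
  rw [div_lt_iff₀ hm'] at hm
  filter_upwards [Conv.ent_le hψ (fun n => (hfs n).pow m) (hf.pow m) (support_pow_mem hfΓ m)
    (h1.pow hψ hfs hf hfΓ m) (fun n => card_support_pow_le (hN n) m) (sub_pos.mpr hm)] with n hn
  refine (hh_le (hfs n) hm0.ne').trans_lt ?_
  rw [div_lt_iff₀ hm']
  linarith

end Pool.Agent.MP_56e4d4_pr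

end

section

/-!
Lower semicontinuity of the asymptotic entropy.
-/

open Filter Topology Finset
open scoped MatrixGroups

namespace Pool.Agent.MP_56e4d4_pr

variable {Γ : Subgroup PSL(2, ℝ)} {ψ : ℕ → PSL(2, ℝ) → PSL(2, ℝ)}

open Classical in
lemma nonconcentration (hψ : Asym Γ ψ) (hψt : ∀ y ∈ Γ, Tendsto (fun n => ψ n y) atTop (𝓝 y))
    {fs : ℕ → MonoidAlgebra ℝ PSL(2, ℝ)} {f : MonoidAlgebra ℝ PSL(2, ℝ)}
    (hfs : ∀ n, IsProb (fs n)) (hf : IsProb f) (hfΓ : ∀ y ∈ f.coeff.support, y ∈ Γ)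
    (h1 : Conv Γ ψ fs f)
    (hne : ¬ ∃ F : Finset P1, F.Nonempty ∧ ∀ s ∈ f.coeff.support, ∀ p ∈ F, s⁻¹ • p ∈ F)
    (ξ : P1) {η : ℝ} (hη : 0 < η) :
    ∃ δ > 0, ∀ᶠ n in atTop, ∀ᶠ K in atTop, ∀ u : P1,
      Ex (ces (fs n) K) (fun y => if dd (y • ξ) u < δ then 1 else 0) ≤ η := by
  by_contra hcon
  apply hne
  have h2 : ∀ j : ℕ, ∃ n ≥ j, ∃ K ≥ j + 1, ∃ u : P1,
      η ≤ Ex (ces (fs n) K) (fun y => if dd (y • ξ) u < 1 / ((j : ℝ) + 1) then 1 else 0) := by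
    intro j
    by_contra h3
    apply hcon
    refine ⟨1 / ((j : ℝ) + 1), by positivity, ?_⟩
    filter_upwards [eventually_ge_atTop j] with n hn
    filter_upwards [eventually_ge_atTop (j + 1)] with K hK u
    by_contra h4
    exact h3 ⟨n, hn, K, hK, u, (not_le.mp h4).le⟩
  choose n hn K hK u hu using h2
  have hn' : Tendsto n atTop atTop := tendsto_atTop_mono hn tendsto_id
  have hK0 : ∀ j, K j ≠ 0 := fun j => by have := hK j; omega
  refine exists_finite_invariant dd dd_symm dd_tri dd_pos dd_cpt ξ f hf (fun j => fs (n j))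
    (fun j => ces (fs (n j)) (K j)) (fun j => hfs _) (fun j => isProb_ces (hfs _) (hK0 j))
    (fun j => 1 / (K j : ℝ)) ?_ (fun j φ h0 h1 => Ex_ces_le (hfs _) (hK0 j) φ h0 h1)
    (fun j => ψ (n j)) (fun s hs => (h1 s (hfΓ s hs)).comp hn') (hn'.eventually (hψ.inj _ hfΓ))
    (fun s hs p ρ hρ => smul_cont ((hψt s (hfΓ s hs)).comp hn') p ρ hρ) hη u
    (fun j => 1 / ((j : ℝ) + 1)) tendsto_one_div_add_atTop_nhds_zero_nat hu
  exact (tendsto_const_div_atTop_nhds_zero_nat (1 : ℝ)).comp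
    (tendsto_atTop_mono (fun j => (Nat.le_succ j).trans (hK j)) tendsto_id)

lemma NN_pow_le {f : MonoidAlgebra ℝ PSL(2, ℝ)} {b : ℕ}
    (hb : ∀ s ∈ f.coeff.support, NN s ≤ 2 ^ b) (m : ℕ) :
    ∀ y ∈ (f ^ m).coeff.support, NN y ≤ 2 ^ (b * m + 1) := by
  induction m with
  | zero =>
    intro y hy
    rw [pow_zero] at hy
    rw [mem_support_one hy, ← QuotientGroup.mk_one, NN_mk]
    norm_num [Nm]
  | succ m ih =>
    intro y hy
    rw [pow_succ] at hy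
    obtain ⟨a, ha, c, hc, rfl⟩ := mem_support_mul hy
    refine (NN_mul a c).trans ?_
    have := one_le_NN c
    calc NN a * NN c ≤ 2 ^ (b * m + 1) * 2 ^ b := by
          gcongr
          · exact ih a ha
          · exact hb c hc
      _ = _ := by ring

open Classical in
lemma card_good_le (A₀ B : Finset PSL(2, ℝ)) (σ : PSL(2, ℝ) → PSL(2, ℝ)) {θ : ℝ} (hθ : 0 < θ)
    (k : ℕ) (hk : ∀ y ∈ A₀, NN (σ y) < 2 ^ k)
    (hB : ∀ y ∈ A₀, ∀ y' ∈ A₀, NN ((σ y)⁻¹ * σ y') ≤ 16 / θ → y⁻¹ * y' ∈ B) (ξ : P1)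
    (z : PSL(2, ℝ)) :
    ((A₀.image σ).filter fun x => θ * NN x ≤ str x ((x⁻¹ * z) • ξ)).card ≤ k * B.card := by
  have hsub : ((A₀.image σ).filter fun x => θ * NN x ≤ str x ((x⁻¹ * z) • ξ)) ⊆
      (Finset.range k).biUnion fun r => (A₀.image σ).filter fun x =>
        θ * NN x ≤ str x ((x⁻¹ * z) • ξ) ∧ 2 ^ r ≤ NN x ∧ NN x < 2 ^ (r + 1) := by
    intro x hx
    rw [Finset.mem_filter] at hx
    obtain ⟨r, hr1, hr2⟩ := exists_nat_pow_near (one_le_NN x) (one_lt_two (α := ℝ))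
    refine Finset.mem_biUnion.mpr ⟨r, ?_, Finset.mem_filter.mpr ⟨hx.1, hx.2, hr1, hr2⟩⟩
    obtain ⟨y, hy, rfl⟩ := Finset.mem_image.mp hx.1
    exact Finset.mem_range.mpr
      ((pow_lt_pow_iff_right₀ (one_lt_two (α := ℝ))).mp (hr1.trans_lt (hk y hy)))
  refine (Finset.card_le_card hsub).trans ?_
  refine (Finset.card_biUnion_le_card_mul _ _ B.card fun r _ => ?_).trans (by simp)
  rcases ((A₀.image σ).filter fun x =>
        θ * NN x ≤ str x ((x⁻¹ * z) • ξ) ∧ 2 ^ r ≤ NN x ∧ NN x < 2 ^ (r + 1)).eq_empty_or_nonempty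
    with h | ⟨x₀, hx₀⟩
  · simp [h]
  · rw [Finset.mem_filter] at hx₀
    obtain ⟨y₀, hy₀, rfl⟩ := Finset.mem_image.mp hx₀.1
    refine le_trans (Finset.card_le_card (t := B.image fun h => σ (y₀ * h)) ?_)
      Finset.card_image_le
    intro x hx
    rw [Finset.mem_filter] at hx
    obtain ⟨y, hy, rfl⟩ := Finset.mem_image.mp hx.1
    refine Finset.mem_image.mpr ⟨y₀⁻¹ * y, hB y₀ hy₀ y hy ?_, by simp⟩
    obtain ⟨-, a1, a2, a3⟩ := hx₀
    obtain ⟨-, b1, b2, b3⟩ := hx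
    rw [pow_succ] at a3 b3
    refine good_count hθ a1 b1 ?_ (by linarith) (by linarith)
    simp [← mul_smul]

open Classical in
lemma bad_le {ν : MonoidAlgebra ℝ PSL(2, ℝ)} (hν : IsProb ν) (ξ : P1) {δ η : ℝ} (hη : 0 ≤ η)
    (hK : ∀ u : P1, Ex ν (fun y => if dd (y • ξ) u < δ then 1 else 0) ≤ η) (x : PSL(2, ℝ)) :
    Ex ν (fun y => if ¬ (δ / 2 * NN x ≤ str x ((x⁻¹ * (x * y)) • ξ)) then 1 else 0) ≤ η := by
  by_cases hq : ∃ q, str x q < δ / 2 * NN x
  · obtain ⟨q, hq⟩ := hq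
    refine le_trans (Ex_mono hν.nonneg fun y _ => ?_) (hK q)
    rw [inv_mul_cancel_left]
    by_cases h2 : δ / 2 * NN x ≤ str x (y • ξ)
    · simp only [h2, not_true, if_false]
      split_ifs <;> norm_num
    · have h3 := bad_close (not_le.mp h2) hq
      rw [mul_div_cancel₀ _ two_ne_zero] at h3
      simp [h2, h3]
  · push Not at hq
    refine hν.Ex_le fun y _ => ?_
    simp [hq, hη]

theorem hh_lower [DiscreteTopology Γ] (hψ : Asym Γ ψ)
    (hψt : ∀ y ∈ Γ, Tendsto (fun n => ψ n y) atTop (𝓝 y))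
    {fs : ℕ → MonoidAlgebra ℝ PSL(2, ℝ)} {f : MonoidAlgebra ℝ PSL(2, ℝ)}
    (hfs : ∀ n, IsProb (fs n)) (hf : IsProb f) (hfΓ : ∀ y ∈ f.coeff.support, y ∈ Γ)
    (h1 : Conv Γ ψ fs f) {c : ℝ} (hc : c < hh f) : ∀ᶠ n in atTop, c < hh (fs n) := by
  classical
  by_cases hel : ∃ F : Finset P1, F.Nonempty ∧ ∀ s ∈ f.coeff.support, ∀ p ∈ F, s⁻¹ • p ∈ F
  · obtain ⟨F, hF, hinv⟩ := hel
    rw [hh_eq_zero_of_invariant f hf Γ hfΓ (stab_comm Γ) F hF hinv] at hc
    exact Eventually.of_forall fun n => hc.trans_le (hh_nonneg (hfs n))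
  obtain ⟨ε, hε⟩ : ∃ ε, ε = hh f - c := ⟨_, rfl⟩
  have hε0 : 0 < ε := by linarith
  obtain ⟨s₀, hs₀⟩ : ∃ s₀, s₀ = f.coeff.support.card := ⟨_, rfl⟩
  have hs₀1 : (1 : ℝ) ≤ s₀ := by
    have := hf.support_nonempty.card_pos
    rw [hs₀]; exact_mod_cast this
  have hL : 0 < Real.log (2 * s₀) := Real.log_pos (by linarith)
  obtain ⟨ξ⟩ : Nonempty P1 := ⟨Projectivization.mk ℝ ![1, 0] (by simp)⟩
  obtain ⟨η, hη⟩ : ∃ η, η = ε / (4 * Real.log (2 * s₀)) := ⟨_, rfl⟩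
  have hη0 : 0 < η := by rw [hη]; positivity
  obtain ⟨δ, hδ, hNC⟩ := nonconcentration hψ hψt hfs hf hfΓ h1 hel ξ hη0
  have hθ : 0 < δ / 2 := half_pos hδ
  obtain ⟨B, hBdef⟩ : ∃ B, B = (finite_ball Γ (16 / (δ / 2) + 1)).toFinset := ⟨_, rfl⟩
  obtain ⟨b, hb⟩ : ∃ b : ℕ, ∀ s ∈ f.coeff.support, NN s ≤ 2 ^ b := by
    have : ∀ᶠ b : ℕ in atTop, ∀ s ∈ f.coeff.support, NN s ≤ 2 ^ b :=
      (eventually_all_finset _).mpr fun s _ =>
        (tendsto_pow_atTop_atTop_of_one_lt (one_lt_two (α := ℝ))).eventually_ge_atTop _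
    exact this.exists
  obtain ⟨m, hm, hm0⟩ := (((tendsto_log_poly (2 * ((b + 2) * (B.card + 1))) 1
    (by positivity)).eventually (gt_mem_nhds (show 0 < ε / 4 by positivity))).and
      (eventually_gt_atTop 0)).exists
  have hm' : (1 : ℝ) ≤ m := by exact_mod_cast hm0
  rw [div_lt_iff₀ (by linarith)] at hm
  have hA₀ := support_pow_mem hfΓ m
  have hconv := h1.pow hψ hfs hf hfΓ m
  have e1 : ∀ᶠ n in atTop, ∀ y ∈ (f ^ m).coeff.support, NN (ψ n y) < 2 ^ (b * m + 2) := by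
    refine (eventually_all_finset _).mpr fun y hy => ?_
    refine ((continuous_NN.tendsto y).comp (hψt y (hA₀ y hy))).eventually (gt_mem_nhds ?_)
    refine (NN_pow_le hb m y hy).trans_lt ?_
    exact pow_lt_pow_right₀ one_lt_two (by omega)
  have e2 : ∀ᶠ n in atTop, ∀ y ∈ (f ^ m).coeff.support, ∀ y' ∈ (f ^ m).coeff.support,
      NN (y⁻¹ * y') - 1 < NN ((ψ n y)⁻¹ * ψ n y') := by
    refine (eventually_all_finset _).mpr fun y hy => (eventually_all_finset _).mpr fun y' hy' => ?_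
    exact ((continuous_NN.tendsto _).comp
      ((hψt y (hA₀ y hy)).inv.mul (hψt y' (hA₀ y' hy')))).eventually (lt_mem_nhds (by linarith))
  filter_upwards [hNC, e1, e2, hψ.inj _ hA₀,
    (Conv.tendsto_ent hA₀ hconv).eventually
      (lt_mem_nhds (show Ent (f ^ m) - ε / 8 < Ent (f ^ m) by linarith)),
    (Conv.tendsto_mass (hf.pow m) hA₀ hconv).eventually
      (gt_mem_nhds (show 0 < ε / 8 by positivity))] with n hNC e1 e2 hinj e3 e4
  have hcount := card_good_le (f ^ m).coeff.support B (ψ n) hθ (b * m + 2) e1 (by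
    intro y hy y' hy' h
    rw [hBdef, Set.Finite.mem_toFinset]
    exact ⟨Γ.mul_mem (Γ.inv_mem (hA₀ y hy)) (hA₀ y' hy'), by linarith [e2 y hy y' hy']⟩) ξ
  have key := hh_ge_count (hfs n) m ((f ^ m).coeff.support.image (ψ n))
    (fun x z => δ / 2 * NN x ≤ str x ((x⁻¹ * z) • ξ))
    (N := (((b + 2) * (B.card + 1) : ℕ) : ℝ) * ((m : ℝ) + 1)) (M := (s₀ : ℝ) ^ m) (η := η)
    (by
      have : (1 : ℝ) ≤ (((b + 2) * (B.card + 1) : ℕ) : ℝ) := by
        exact_mod_cast Nat.succ_le_of_lt (by positivity)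
      nlinarith)
    (one_le_pow₀ hs₀1) hη0.le
    (by
      have := (Finset.card_image_le (f := ψ n)).trans
        (card_support_pow_le (f := f) (N := s₀) hs₀.ge m)
      exact_mod_cast this)
    (by
      intro z
      have h2 : (b * m + 2) * B.card ≤ (b + 2) * (B.card + 1) * (m + 1) := by
        nlinarith [Nat.zero_le b, Nat.zero_le m, Nat.zero_le B.card, Nat.zero_le (b * m),
          Nat.zero_le (b * B.card), Nat.zero_le (m * B.card)]
      have h3 := (hcount z).trans h2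
      have h4 := (Nat.cast_le (α := ℝ)).mpr h3
      rw [Nat.cast_mul _ (m + 1), Nat.cast_add m 1, Nat.cast_one] at h4
      convert h4)
    (by
      filter_upwards [hNC, eventually_gt_atTop 0] with K hK hK0 x _
      exact bad_le (isProb_ces (hfs n) hK0.ne') ξ hη0.le hK x)
  rw [Finset.sum_image hinj, Finset.sum_image hinj] at key
  have t1 : Real.log (2 * (s₀ : ℝ) ^ m) ≤ m * Real.log (2 * s₀) := by
    rw [← Real.log_pow, mul_pow]
    refine Real.log_le_log (by positivity) ?_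
    gcongr
    exact le_self_pow₀ one_le_two hm0.ne'
  have t2 : Real.log (2 * (s₀ : ℝ) ^ m) * η ≤ m * (ε / 4) := by
    refine (mul_le_mul_of_nonneg_right t1 hη0.le).trans (le_of_eq ?_)
    rw [hη]
    field_simp
  have t3 : Real.log (2 * ((((b + 2) * (B.card + 1) : ℕ) : ℝ) * ((m : ℝ) + 1))) < ε / 4 * m := by
    rw [pow_one, Nat.cast_mul 2, Nat.cast_ofNat, mul_assoc] at hm
    exact hm
  have t4 := hh_le hf hm0.ne'
  rw [le_div_iff₀ (by linarith)] at t4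
  by_contra hcon
  push Not at hcon
  have t5 : (m : ℝ) * hh (fs n) ≤ m * c := mul_le_mul_of_nonneg_left hcon (by linarith)
  have t6 : ε * 1 ≤ ε * m := mul_le_mul_of_nonneg_left hm' hε0.le
  have t7 : hh f * m = m * c + ε * m := by rw [hε]; ring
  linarith

end Pool.Agent.MP_56e4d4_pr

end

section

/-!
From probability mass functions to the group algebra, and the two semicontinuity theorems.
-/

open Filter Topology Finset
open scoped MatrixGroups

set_option linter.unusedSectionVars false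

namespace Pool.Agent.MP_56e4d4_pr

section General

variable {G : Type*} [Group G]

/-- `f` represents `μ`. -/
def Rep (μ : PMF G) (f : MonoidAlgebra ℝ G) : Prop := ∀ x, μ x = ENNReal.ofReal (f.coeff x)

lemma exists_rep (μ : PMF G) (S : Finset G) (h : μ.support ⊆ (S : Set G)) :
    ∃ f : MonoidAlgebra ℝ G, IsProb f ∧ Rep μ f ∧ f.coeff.support ⊆ S := by
  classical
  have hz : ∀ x, x ∉ S → μ x = 0 := fun x hx => by
    by_contra h'
    exact hx (h ((PMF.mem_support_iff μ x).mpr h'))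
  set f : MonoidAlgebra ℝ G := .ofCoeff (Finsupp.onFinset S (fun x => (μ x).toReal)
    fun x hx => by
      by_contra h'
      exact hx (by simp [hz x h'])) with hf
  have hc : ∀ x, f.coeff x = (μ x).toReal := fun x => rfl
  have hsub : f.coeff.support ⊆ S := fun x hx => by
    by_contra h'
    exact Finsupp.mem_support_iff.mp hx (by simp [hc, hz x h'])
  refine ⟨f, ⟨fun x => ENNReal.toReal_nonneg, ?_⟩,
    fun x => by rw [hc, ENNReal.ofReal_toReal (μ.apply_ne_top x)], hsub⟩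
  rw [Finset.sum_subset hsub fun x _ hx => Finsupp.notMem_support_iff.mp hx]
  simp only [hc]
  have h1 : ∑' x, μ x = ∑ x ∈ S, μ x := tsum_eq_sum hz
  rw [← ENNReal.toReal_sum fun x _ => μ.apply_ne_top x, ← h1, μ.tsum_coe]
  rfl

lemma exists_pmf (f : MonoidAlgebra ℝ G) (hf : IsProb f) : ∃ μ : PMF G, Rep μ f := by
  refine ⟨PMF.ofFinset (fun x => ENNReal.ofReal (f.coeff x)) f.coeff.support ?_ ?_, fun x => rfl⟩
  · rw [← ENNReal.ofReal_sum_of_nonneg fun x _ => hf.nonneg x, hf.total, ENNReal.ofReal_one]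
  · intro x hx
    rw [Finsupp.notMem_support_iff.mp hx, ENNReal.ofReal_zero]

lemma Rep.support_eq {μ : PMF G} {f : MonoidAlgebra ℝ G} (h : Rep μ f) (hf : IsProb f) :
    μ.support = (f.coeff.support : Set G) := by
  ext x
  rw [PMF.mem_support_iff, h x, Finset.mem_coe, Finsupp.mem_support_iff, Ne,
    ENNReal.ofReal_eq_zero, not_le]
  exact ⟨fun h => h.ne', fun h => lt_of_le_of_ne (hf.nonneg x) (Ne.symm h)⟩

lemma Rep.toReal {μ : PMF G} {f : MonoidAlgebra ℝ G} (h : Rep μ f) (hf : IsProb f) (x : G) :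
    (μ x).toReal = f.coeff x := by
  rw [h x, ENNReal.toReal_ofReal (hf.nonneg x)]

lemma Rep.convPow {μ : PMF G} {f : MonoidAlgebra ℝ G} (h : Rep μ f) (hf : IsProb f) (k : ℕ) :
    Rep (convPow μ k) (f ^ k) := by
  classical
  induction k with
  | zero =>
    intro x
    rw [pow_zero, MonoidAlgebra.one_def, MonoidAlgebra.coeff_single, Finsupp.single_apply,
      MP_56e4d4_pr.convPow, PMF.pure_apply]
    by_cases hx : x = 1
    · simp [hx]
    · simp [hx, Ne.symm hx]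
  | succ k ih =>
    intro x
    have h1 : ∀ a, (μ.map fun b => a * b) x = μ (a⁻¹ * x) := by
      intro a
      rw [PMF.map_apply, tsum_eq_single (a⁻¹ * x)]
      · simp
      · intro b hb
        rw [if_neg]
        rintro rfl
        simp at hb
    rw [MP_56e4d4_pr.convPow, PMF.bind_apply, pow_succ, coeff_mul_eq, Ex,
      ENNReal.ofReal_sum_of_nonneg fun a _ => mul_nonneg ((hf.pow k).nonneg a) (hf.nonneg _),
      tsum_eq_sum (s := (f ^ k).coeff.support)]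
    · refine Finset.sum_congr rfl fun a _ => ?_
      rw [h1, ih a, h, ENNReal.ofReal_mul ((hf.pow k).nonneg a)]
    · intro a ha
      rw [ih a, Finsupp.notMem_support_iff.mp ha]
      simp

lemma Rep.shannon_eq {μ : PMF G} {f : MonoidAlgebra ℝ G} (h : Rep μ f) (hf : IsProb f) :
    shannon μ = Ent f := by
  unfold shannon Ent
  simp only [h.toReal hf]
  refine tsum_eq_sum fun x hx => ?_
  rw [Finsupp.notMem_support_iff.mp hx, Real.negMulLog_zero]

lemma Rep.avez_eq {μ : PMF G} {f : MonoidAlgebra ℝ G} (h : Rep μ f) (hf : IsProb f) :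
    avez μ = hh f := by
  unfold avez hh
  simp only [(h.convPow hf _).shannon_eq (hf.pow _)]

end General

lemma exists_asym {Γs : ℕ → Subgroup PSL(2, ℝ)} {Γ : Subgroup PSL(2, ℝ)}
    {Ss : ℕ → Finset PSL(2, ℝ)} {S : Finset PSL(2, ℝ)} {μs : ℕ → PMF PSL(2, ℝ)}
    {μ : PMF PSL(2, ℝ)} (D : IsData Γs Γ Ss S μs μ) :
    ∃ (ψ : ℕ → PSL(2, ℝ) → PSL(2, ℝ)) (fs : ℕ → MonoidAlgebra ℝ PSL(2, ℝ))
      (f : MonoidAlgebra ℝ PSL(2, ℝ)), Asym Γ ψ ∧
      (∀ y ∈ Γ, Tendsto (fun n => ψ n y) atTop (𝓝 y)) ∧ (∀ n, IsProb (fs n)) ∧ IsProb f ∧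
      (∀ y ∈ f.coeff.support, y ∈ Γ) ∧ Conv Γ ψ fs f ∧
      (∀ n, (fs n).coeff.support ⊆ Ss n) ∧ (∀ n, avez (μs n) = hh (fs n)) ∧ avez μ = hh f := by
  classical
  have := D.discrete_lim
  have h1 : ∀ y : PSL(2, ℝ), ∃ a : ℕ → PSL(2, ℝ), (∀ n, a n ∈ Γs n) ∧
      (y ∈ Γ → Tendsto a atTop (𝓝 y)) := by
    intro y
    by_cases hy : y ∈ Γ
    · obtain ⟨a, ha, ha'⟩ := D.conv_group.1 y hy
      exact ⟨a, ha, fun _ => ha'⟩
    · exact ⟨fun _ => 1, fun n => (Γs n).one_mem, fun h => absurd h hy⟩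
  choose a ha ha' using h1
  have hUD : ∀ (u v : ℕ → PSL(2, ℝ)) (y : PSL(2, ℝ)), (∀ n, u n ∈ Γs n) → (∀ n, v n ∈ Γs n) →
      Tendsto u atTop (𝓝 y) → Tendsto v atTop (𝓝 y) → ∀ᶠ n in atTop, u n = v n := by
    intro u v y hu hv hu' hv'
    have h2 := hu'.inv.mul hv'
    rw [inv_mul_cancel] at h2
    filter_upwards [eventually_eq_one Γ Γs D.conv_group.2 _
      (fun n => (Γs n).mul_mem ((Γs n).inv_mem (hu n)) (hv n)) h2] with n hn
    exact inv_mul_eq_one.mp hn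
  have hasym : Asym Γ fun n y => a y n := by
    refine ⟨fun y hy y' hy' => hUD _ _ (y * y') (ha _)
      (fun n => (Γs n).mul_mem (ha y n) (ha y' n)) (ha' _ (Γ.mul_mem hy hy'))
      ((ha' y hy).mul (ha' y' hy')), fun T hT => ?_⟩
    have h3 : ∀ᶠ n in atTop, ∀ y ∈ T, ∀ y' ∈ T, y ≠ y' → a y n ≠ a y' n := by
      refine (eventually_all_finset _).mpr fun y hy => (eventually_all_finset _).mpr fun y' hy' => ?_
      by_cases h : y = y'
      · simp [h]
      · have h4 := ((ha' y (hT y hy)).inv.mul (ha' y' (hT y' hy'))).eventually_ne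
          (show y⁻¹ * y' ≠ 1 from fun e => h (inv_mul_eq_one.mp e))
        filter_upwards [h4] with n hn _ e
        exact hn (inv_mul_eq_one.mpr e)
    filter_upwards [h3] with n hn y hy y' hy' e
    by_contra h
    exact hn y hy y' hy' h e
  choose fs hfs hrep hsub using fun n => exists_rep (μs n) (Ss n) (D.supp_seq n)
  obtain ⟨f, hf, hrepf, hsubf⟩ := exists_rep μ S D.supp_lim
  have hfΓ : ∀ y ∈ f.coeff.support, y ∈ Γ := fun y hy =>
    D.gen_lim ▸ Subgroup.subset_closure (hsubf hy)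
  refine ⟨fun n y => a y n, fs, f, hasym, ha', hfs, hf, hfΓ, ?_, hsub,
    fun n => (hrep n).avez_eq (hfs n), hrepf.avez_eq hf⟩
  refine conv_of_lower hasym hfs hf hfΓ (fun n y => (fs n).coeff (a y n)) (fun y hy => ?_)
    fun y _ => Eventually.of_forall fun n => le_rfl
  obtain ⟨s, hs, hs'⟩ := D.conv_gen.1 y (hsubf hy)
  have h5 := (ENNReal.tendsto_toReal (μ.apply_ne_top y)).comp
    (D.conv_weight s y hs (hsubf hy) hs')
  rw [hrepf.toReal hf] at h5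
  refine h5.congr' ?_
  filter_upwards [hUD s (a y) y (fun n => D.gen_seq n ▸ Subgroup.subset_closure (hs n)) (ha y) hs'
    (ha' y (hfΓ y hy))] with n hn
  simp only [Function.comp]
  rw [(hrep n).toReal (hfs n), hn]

theorem avez_lower {Γs : ℕ → Subgroup PSL(2, ℝ)} {Γ : Subgroup PSL(2, ℝ)}
    {Ss : ℕ → Finset PSL(2, ℝ)} {S : Finset PSL(2, ℝ)} {μs : ℕ → PMF PSL(2, ℝ)}
    {μ : PMF PSL(2, ℝ)} (D : IsData Γs Γ Ss S μs μ) {c : ℝ} (hc : c < avez μ) :
    ∀ᶠ n in atTop, c < avez (μs n) := by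
  obtain ⟨ψ, fs, f, h1, h2, h3, h4, h5, h6, -, h8, h9⟩ := exists_asym D
  have := D.discrete_lim
  simp only [h8]
  exact hh_lower h1 h2 h3 h4 h5 h6 (h9 ▸ hc)

theorem avez_upper {Γs : ℕ → Subgroup PSL(2, ℝ)} {Γ : Subgroup PSL(2, ℝ)}
    {Ss : ℕ → Finset PSL(2, ℝ)} {S : Finset PSL(2, ℝ)} {μs : ℕ → PMF PSL(2, ℝ)}
    {μ : PMF PSL(2, ℝ)} (D : IsData Γs Γ Ss S μs μ) {N : ℕ} (hN : ∀ n, (Ss n).card ≤ N)
    {c : ℝ} (hc : avez μ < c) : ∀ᶠ n in atTop, avez (μs n) < c := by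
  obtain ⟨ψ, fs, f, h1, -, h3, h4, h5, h6, h7, h8, h9⟩ := exists_asym D
  simp only [h8]
  exact hh_upper h1 h3 h4 h5 h6 (fun n => (Finset.card_le_card (h7 n)).trans (hN n)) (h9 ▸ hc)

end Pool.Agent.MP_56e4d4_pr

end
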